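import Mathlib

set_option autoImplicit false

/-! Random partners in Elliott's conjecture (MP_f3f922_nt): counting and the Turan-Kubilius
inequality along an arithmetic progression. -/

namespace Pool.Agent.EllRand

open Finset
open scoped BigOperators

/-- the number of `m ≤ M` with `d ∣ p m + c` -/
theorem cnt (p : ℕ) (c : ℤ) (d M : ℕ) (hd : 0 < d) (hpd : Nat.Coprime p d) :
    |(((Finset.Icc 1 M).filter (fun m : ℕ => (d : ℤ) ∣ p * m + c)).card : ℝ) - M / d| ≤ 1 := by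
  obtain ⟨u, hu⟩ : ∃ u : ℤ, (p : ℤ) * u ≡ 1 [ZMOD d] := by
    obtain ⟨u, v, huv⟩ := Int.isCoprime_iff_gcd_eq_one.mpr
      (show Int.gcd (p : ℤ) (d : ℤ) = 1 by rw [Int.gcd_natCast_natCast]; exact hpd)
    refine ⟨u, ?_⟩
    rw [Int.modEq_iff_dvd]
    refine ⟨v, ?_⟩
    linear_combination -huv
  have hd' : (0 : ℤ) < d := by exact_mod_cast hd
  set v : ℕ := ((-u * c) % d).toNat with hv
  have hv' : (v : ℤ) = (-u * c) % d := by
    rw [hv, Int.toNat_of_nonneg (Int.emod_nonneg _ hd'.ne')]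
  have key : ∀ m : ℕ, ((d : ℤ) ∣ p * m + c) ↔ m ≡ v [MOD d] := by
    intro m
    rw [← Int.natCast_modEq_iff, hv']
    have e1 : (m : ℤ) ≡ (-u * c) % d [ZMOD d] ↔ (m : ℤ) ≡ -u * c [ZMOD d] := by
      constructor
      · intro h; exact h.trans (Int.mod_modEq _ _)
      · intro h; exact h.trans (Int.mod_modEq _ _).symm
    rw [e1]
    rw [Int.modEq_iff_dvd] at hu
    obtain ⟨t, ht⟩ := hu
    rw [Int.modEq_iff_dvd]
    constructor
    · rintro ⟨s, hs⟩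
      refine ⟨-(u * s) - t * m, ?_⟩
      linear_combination -u * hs - m * ht
    · rintro ⟨s, hs⟩
      refine ⟨-(p * s) + t * c, ?_⟩
      linear_combination -p * hs + c * ht
  have e2 : (Finset.Icc 1 M).filter (fun m : ℕ => (d : ℤ) ∣ p * m + c)
      = (Finset.Ioc 0 M).filter (fun m : ℕ => m ≡ v [MOD d]) := by
    ext m
    simp only [Finset.mem_filter, Finset.mem_Icc, Finset.mem_Ioc, key]
    constructor <;> rintro ⟨⟨h1, h2⟩, h3⟩ <;> exact ⟨⟨by omega, h2⟩, h3⟩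
  rw [e2]
  have e3 := Nat.Ioc_filter_modEq_card 0 M hd v
  have hdq : (0 : ℚ) < d := by exact_mod_cast hd
  have hle : ⌊((0 : ℕ) - (v : ℚ)) / (d : ℚ)⌋ ≤ ⌊((M : ℚ) - v) / (d : ℚ)⌋ := by
    apply Int.floor_le_floor
    apply div_le_div_of_nonneg_right _ hdq.le
    have : (0 : ℚ) ≤ M := by positivity
    push_cast
    linarith
  rw [max_eq_left (by push_cast at hle ⊢; linarith)] at e3
  have e4 : ((((Finset.Ioc 0 M).filter (fun m : ℕ => m ≡ v [MOD d])).card : ℤ) : ℝ)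
      = ((⌊((M : ℚ) - v) / (d : ℚ)⌋ - ⌊(((0 : ℕ) : ℚ) - v) / (d : ℚ)⌋ : ℤ) : ℝ) := by
    exact_mod_cast e3
  rw [Int.cast_natCast] at e4
  rw [e4]
  have f1 := Int.floor_le (((M : ℚ) - v) / (d : ℚ))
  have f2 := Int.lt_floor_add_one (((M : ℚ) - v) / (d : ℚ))
  have f3 := Int.floor_le ((((0 : ℕ) : ℚ) - v) / (d : ℚ))
  have f4 := Int.lt_floor_add_one ((((0 : ℕ) : ℚ) - v) / (d : ℚ))
  have f5 : ((M : ℚ) - v) / (d : ℚ) - (((0 : ℕ) : ℚ) - v) / (d : ℚ) = M / d := by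
    push_cast; ring
  have g1 : ((⌊((M : ℚ) - v) / (d : ℚ)⌋ : ℚ) - ⌊(((0 : ℕ) : ℚ) - v) / (d : ℚ)⌋) - M / d ≤ 1 := by
    linarith
  have g2 : -1 ≤ ((⌊((M : ℚ) - v) / (d : ℚ)⌋ : ℚ) - ⌊(((0 : ℕ) : ℚ) - v) / (d : ℚ)⌋) - M / d := by
    linarith
  have k1 := (Rat.cast_le (K := ℝ)).mpr g1
  have k2 := (Rat.cast_le (K := ℝ)).mpr g2
  rw [abs_le]
  push_cast at k1 k2 ⊢
  exact ⟨k2, k1⟩

/-- the upper bound in `cnt` -/
theorem cnt_le (p : ℕ) (c : ℤ) (d M : ℕ) (hd : 0 < d) (hpd : Nat.Coprime p d) :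
    (((Finset.Icc 1 M).filter (fun m : ℕ => (d : ℤ) ∣ p * m + c)).card : ℝ) ≤ M / d + 1 := by
  have := (abs_le.mp (cnt p c d M hd hpd)).2
  linarith

/-- the lower bound in `cnt` -/
theorem le_cnt (p : ℕ) (c : ℤ) (d M : ℕ) (hd : 0 < d) (hpd : Nat.Coprime p d) :
    (M : ℝ) / d - 1 ≤ (((Finset.Icc 1 M).filter (fun m : ℕ => (d : ℤ) ∣ p * m + c)).card : ℝ) := by
  have := (abs_le.mp (cnt p c d M hd hpd)).1
  linarith

end Pool.Agent.EllRand
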