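import Mathlib

set_option autoImplicit false

/-! Random partners in Elliott's conjecture (MP_f3f922_nt): expectations of products. -/

namespace Pool.Agent.EllRand

open Finset MeasureTheory ProbabilityTheory
open scoped BigOperators ComplexConjugate

/-- conjugate if `b` -/
noncomputable def cj (b : Bool) (z : ℂ) : ℂ := if b then conj z else z

theorem cj_one (b : Bool) : cj b 1 = 1 := by
  unfold cj; split_ifs <;> simp

theorem cj_prod {ι : Type*} (b : Bool) (s : Finset ι) (f : ι → ℂ) :
    cj b (∏ i ∈ s, f i) = ∏ i ∈ s, cj b (f i) := by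
  unfold cj; split_ifs
  · rw [map_prod]
  · rfl

theorem norm_cj (b : Bool) (z : ℂ) : ‖cj b z‖ = ‖z‖ := by
  unfold cj; split_ifs
  · exact RCLike.norm_conj z
  · rfl

theorem measurable_cj (b : Bool) : Measurable (cj b) := by
  cases b
  · have h : cj false = id := by
      funext z
      simp [cj]
    rw [h]
    exact measurable_id
  · have h : cj true = fun z => conj z := by
      funext z
      simp [cj]
    rw [h]
    exact Complex.continuous_conj.measurable

/-- a value of a multiplicative function as a product over the primes below `B` -/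
theorem fact_prod (f : ArithmeticFunction ℂ) (hf : f.IsMultiplicative) (n B : ℕ) (hn : n ≠ 0)
    (hB : n < B) :
    f n = ∏ l ∈ ((Finset.range B).subtype Nat.Prime), f ((l : ℕ) ^ n.factorization l) := by
  rw [ArithmeticFunction.IsMultiplicative.multiplicative_factorization f hf hn]
  rw [Finset.prod_subtype_eq_prod_filter (s := Finset.range B) (p := Nat.Prime)
    (f := fun l : ℕ => f (l ^ n.factorization l))]
  rw [Finsupp.prod_of_support_subset _ (s := (Finset.range B).filter Nat.Prime)]
  · intro l hl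
    rw [Nat.support_factorization] at hl
    rw [Finset.mem_filter, Finset.mem_range]
    exact ⟨(Nat.le_of_mem_primeFactors hl).trans_lt hB, Nat.prime_of_mem_primeFactors hl⟩
  · intro l _
    rw [pow_zero]
    exact hf.map_one

/-- the expectation of a product of values of random multiplicative functions -/
theorem exp_bound {Ω : Type} [MeasurableSpace Ω] (μ : Measure Ω) [IsProbabilityMeasure μ]
    {k : ℕ} (g : Fin (k + 1) → Ω → ArithmeticFunction ℂ)
    (hmeas : ∀ j n, Measurable fun ω => g j ω n)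
    (hmul : ∀ j ω, (g j ω).IsMultiplicative)
    (hbd : ∀ j ω n, ‖g j ω n‖ ≤ 1)
    (hind : iIndepFun (fun (p : Nat.Primes) ω (i : Fin (k + 1) × ℕ) => g i.1 ω ((p : ℕ) ^ i.2)) μ)
    {ι : Type} [Fintype ι] (j : ι → Fin (k + 1)) (b : ι → Bool) (N : ι → ℕ) (hN : ∀ i, N i ≠ 0)
    (i₀ : ι) (hb : b i₀ = false) (S : Finset ℕ)
    (hS : ∀ l ∈ S, l.Prime ∧ (N i₀).factorization l = 1 ∧ ∀ i, i ≠ i₀ → ¬ l ∣ N i) :
    ‖∫ ω, ∏ i, cj (b i) (g (j i) ω (N i)) ∂μ‖ ≤ ∏ l ∈ S, ‖∫ ω, g (j i₀) ω l ∂μ‖ := by
  classical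
  set B : ℕ := (∑ i, N i) + 1 with hB
  have hNB : ∀ i, N i < B := by
    intro i
    have := Finset.single_le_sum (f := N) (fun i _ => Nat.zero_le _) (Finset.mem_univ i)
    omega
  set T : Finset Nat.Primes := (Finset.range B).subtype Nat.Prime with hT
  set Φ : Nat.Primes → (Fin (k + 1) × ℕ → ℂ) → ℂ := fun l x =>
    ∏ i, cj (b i) (x (j i, (N i).factorization l)) with hΦ
  set X : Nat.Primes → Ω → (Fin (k + 1) × ℕ → ℂ) := fun p ω i => g i.1 ω ((p : ℕ) ^ i.2) with hX
  have hXm : ∀ p, Measurable (X p) := by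
    intro p
    rw [measurable_pi_iff]
    intro i
    exact hmeas i.1 _
  have hΦm : ∀ l, Measurable (Φ l) := by
    intro l
    rw [hΦ]
    refine Finset.measurable_prod _ fun i _ => ?_
    exact (measurable_cj _).comp (measurable_pi_apply _)
  have hI : ∀ ω, ∏ i, cj (b i) (g (j i) ω (N i)) = ∏ l : T, Φ l (X l ω) := by
    intro ω
    rw [Finset.prod_coe_sort T (fun l => Φ l (X l ω))]
    simp only [hΦ, hX]
    rw [Finset.prod_comm]
    refine prod_congr rfl fun i _ => ?_
    rw [fact_prod (g (j i) ω) (hmul _ _) (N i) B (hN i) (hNB i), cj_prod]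
    rfl
  have hind' : iIndepFun (fun l : T => X (l : Nat.Primes)) μ :=
    hind.precomp (g := fun l : T => (l : Nat.Primes)) Subtype.val_injective
  have hE : ∫ ω, ∏ i, cj (b i) (g (j i) ω (N i)) ∂μ = ∏ l : T, ∫ ω, Φ l (X l ω) ∂μ := by
    simp only [hI]
    exact hind'.integral_fun_prod_comp (f := fun l : T => Φ l)
      (fun l => (hXm l).aemeasurable) (fun l => (hΦm l).aestronglyMeasurable)
  rw [hE, norm_prod, Finset.prod_coe_sort T (fun l => ‖∫ ω, Φ l (X l ω) ∂μ‖)]
  have hone : ∀ l : Nat.Primes, ‖∫ ω, Φ l (X l ω) ∂μ‖ ≤ 1 := by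
    intro l
    have h1 : ‖∫ ω, Φ l (X l ω) ∂μ‖ ≤ 1 * μ.real Set.univ := by
      refine norm_integral_le_of_norm_le_const (Filter.Eventually.of_forall fun ω => ?_)
      rw [hΦ]
      simp only
      rw [norm_prod]
      refine prod_le_one (fun _ _ => norm_nonneg _) fun i _ => ?_
      rw [norm_cj]
      exact hbd _ _ _
    simpa using h1
  have hSl : ∀ l : Nat.Primes, (l : ℕ) ∈ S → ∫ ω, Φ l (X l ω) ∂μ = ∫ ω, g (j i₀) ω l ∂μ := by
    intro l hl
    obtain ⟨h1, h2, h3⟩ := hS l hl
    congr 1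
    ext ω
    simp only [hΦ, hX]
    rw [Fintype.prod_eq_single i₀]
    · rw [h2, pow_one, hb]
      simp [cj]
    · intro i hi
      rw [Nat.factorization_eq_zero_of_not_dvd (h3 i hi), pow_zero, (hmul _ _).map_one, cj_one]
  calc ∏ l ∈ T, ‖∫ ω, Φ l (X l ω) ∂μ‖
      ≤ ∏ l ∈ T, (if (l : ℕ) ∈ S then ‖∫ ω, g (j i₀) ω l ∂μ‖ else 1) := by
        refine prod_le_prod (fun _ _ => norm_nonneg _) fun l _ => ?_
        split_ifs with h
        · rw [hSl l h]
        · exact hone l
    _ = ∏ l ∈ (Finset.range B).filter Nat.Prime,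
          (if (l : ℕ) ∈ S then ‖∫ ω, g (j i₀) ω l ∂μ‖ else 1) := by
        rw [hT]
        exact Finset.prod_subtype_eq_prod_filter (s := Finset.range B) (p := Nat.Prime)
          (f := fun l : ℕ => if l ∈ S then ‖∫ ω, g (j i₀) ω l ∂μ‖ else 1)
    _ = ∏ l ∈ S, ‖∫ ω, g (j i₀) ω l ∂μ‖ := by
        rw [Finset.prod_ite_mem]
        congr 1
        ext l
        simp only [Finset.mem_inter, Finset.mem_filter, Finset.mem_range]
        constructor
        · exact fun h => h.2
        · intro h
          refine ⟨⟨?_, (hS l h).1⟩, h⟩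
          have h1 : l ∣ N i₀ := by
            by_contra hc
            have := (hS l h).2.1
            rw [Nat.factorization_eq_zero_of_not_dvd hc] at this
            omega
          exact (Nat.le_of_dvd (Nat.pos_of_ne_zero (hN i₀)) h1).trans_lt (hNB i₀)

end Pool.Agent.EllRand
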