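import Mathlib
import Pool.Agent.EllRand.Count

set_option autoImplicit false

/-! Random partners in Elliott's conjecture (MP_f3f922_nt): the Turan-Kubilius
inequality along an arithmetic progression. -/

namespace Pool.Agent.EllRand

open Finset
open scoped BigOperators

/-- weighted number of prime factors in `Q` of `p m + c` -/
noncomputable def Wt (Q : Finset ℕ) (w : ℕ → ℝ) (p : ℕ) (c : ℤ) (m : ℕ) : ℝ :=
  ∑ l ∈ Q, w l * (if (l : ℤ) ∣ p * m + c then 1 else 0)

theorem sum_ite_card (M : ℕ) (P : ℕ → Prop) [DecidablePred P] :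
    ∑ m ∈ Finset.Icc 1 M, (if P m then (1 : ℝ) else 0) = ((Finset.Icc 1 M).filter P).card := by
  rw [Finset.card_filter]
  push_cast
  rfl

theorem pair_le (p : ℕ) (c : ℤ) (M l l' : ℕ) (hl : l.Prime) (hl' : l'.Prime)
    (h1 : Nat.Coprime p l) (h2 : Nat.Coprime p l') :
    ∑ m ∈ Finset.Icc 1 M, ((if (l : ℤ) ∣ p * m + c then (1 : ℝ) else 0) *
      (if (l' : ℤ) ∣ p * m + c then (1 : ℝ) else 0))
    ≤ (M : ℝ) / l * (1 / l') + 1 + (if l = l' then (M : ℝ) / l else 0) := by
  by_cases h : l = l'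
  · subst h
    rw [if_pos rfl]
    calc ∑ m ∈ Finset.Icc 1 M, ((if (l : ℤ) ∣ p * m + c then (1 : ℝ) else 0) *
          (if (l : ℤ) ∣ p * m + c then (1 : ℝ) else 0))
        = ∑ m ∈ Finset.Icc 1 M, (if (l : ℤ) ∣ p * m + c then (1 : ℝ) else 0) := by
          refine sum_congr rfl fun m _ => ?_
          split_ifs <;> norm_num
      _ = (((Finset.Icc 1 M).filter (fun m : ℕ => (l : ℤ) ∣ p * m + c)).card : ℝ) :=
          sum_ite_card M _
      _ ≤ M / l + 1 := cnt_le p c l M hl.pos h1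
      _ ≤ _ := by
          have : (0 : ℝ) ≤ (M : ℝ) / l * (1 / l) := by positivity
          linarith
  · rw [if_neg h, add_zero]
    have hco : Nat.Coprime l l' := (Nat.coprime_primes hl hl').mpr h
    calc ∑ m ∈ Finset.Icc 1 M, ((if (l : ℤ) ∣ p * m + c then (1 : ℝ) else 0) *
          (if (l' : ℤ) ∣ p * m + c then (1 : ℝ) else 0))
        = ∑ m ∈ Finset.Icc 1 M, (if ((l * l' : ℕ) : ℤ) ∣ p * m + c then (1 : ℝ) else 0) := by
          refine sum_congr rfl fun m _ => ?_
          by_cases a : (l : ℤ) ∣ p * m + c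
          · by_cases b : (l' : ℤ) ∣ p * m + c
            · have : ((l * l' : ℕ) : ℤ) ∣ p * m + c := by
                push_cast
                exact (Nat.isCoprime_iff_coprime.mpr hco).mul_dvd a b
              rw [if_pos a, if_pos b, if_pos this, mul_one]
            · have : ¬ ((l * l' : ℕ) : ℤ) ∣ p * m + c := by
                intro h3
                apply b
                push_cast at h3
                exact (Dvd.intro_left _ rfl).trans h3
              rw [if_neg b, if_neg this, mul_zero]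
          · have : ¬ ((l * l' : ℕ) : ℤ) ∣ p * m + c := by
              intro h3
              apply a
              push_cast at h3
              exact (Dvd.intro _ rfl).trans h3
            rw [if_neg a, if_neg this, zero_mul]
      _ = (((Finset.Icc 1 M).filter (fun m : ℕ => ((l * l' : ℕ) : ℤ) ∣ p * m + c)).card : ℝ) :=
          sum_ite_card M _
      _ ≤ M / ((l * l' : ℕ) : ℝ) + 1 :=
          cnt_le p c (l * l') M (Nat.mul_pos hl.pos hl'.pos) (Nat.Coprime.mul_right h1 h2)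
      _ = _ := by
          push_cast
          rw [div_mul_div_comm, mul_one]

/-- Turan-Kubilius with weights -/
theorem tk (Q : Finset ℕ) (w : ℕ → ℝ) (p : ℕ) (c : ℤ) (y M : ℕ) (L : ℝ)
    (hQ : ∀ l ∈ Q, l.Prime ∧ l ≤ y ∧ Nat.Coprime p l) (hw : ∀ l, 0 ≤ w l ∧ w l ≤ 1)
    (hy : y ^ 2 ≤ M) (hL : L = ∑ l ∈ Q, w l / l) :
    ∑ m ∈ Finset.Icc 1 M, (Wt Q w p c m - L) ^ 2 ≤ (3 * L + 1) * M := by
  have hL0 : 0 ≤ L := by
    rw [hL]
    exact sum_nonneg fun l _ => div_nonneg (hw l).1 (Nat.cast_nonneg _)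
  have hcard : (Q.card : ℝ) ≤ y := by
    have : Q ⊆ Finset.Icc 1 y := by
      intro l hl
      rw [Finset.mem_Icc]
      exact ⟨(hQ l hl).1.pos, (hQ l hl).2.1⟩
    have := card_le_card this
    rw [Nat.card_Icc] at this
    exact_mod_cast this
  have hyM : (y : ℝ) ^ 2 ≤ M := by exact_mod_cast hy
  have hyM' : (y : ℝ) ≤ M := by
    have : y ≤ y ^ 2 := by nlinarith [Nat.zero_le y]
    have : y ≤ M := this.trans hy
    exact_mod_cast this
  have hsw : ∑ l ∈ Q, w l ≤ y := by
    calc ∑ l ∈ Q, w l ≤ ∑ l ∈ Q, 1 := sum_le_sum fun l _ => (hw l).2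
      _ = Q.card := by simp
      _ ≤ y := hcard
  have hsw0 : 0 ≤ ∑ l ∈ Q, w l := sum_nonneg fun l _ => (hw l).1
  -- first moment
  have h1 : (M : ℝ) * L - y ≤ ∑ m ∈ Finset.Icc 1 M, Wt Q w p c m := by
    unfold Wt
    rw [sum_comm]
    have : ∀ l ∈ Q, (M : ℝ) * (w l / l) - w l ≤
        ∑ m ∈ Finset.Icc 1 M, w l * (if (l : ℤ) ∣ p * m + c then (1 : ℝ) else 0) := by
      intro l hl
      rw [← mul_sum, sum_ite_card]
      have h := le_cnt p c l M (hQ l hl).1.pos (hQ l hl).2.2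
      have := mul_le_mul_of_nonneg_left h (hw l).1
      calc (M : ℝ) * (w l / l) - w l = w l * (M / l - 1) := by ring
        _ ≤ _ := this
    calc (M : ℝ) * L - y ≤ ∑ l ∈ Q, ((M : ℝ) * (w l / l) - w l) := by
          rw [sum_sub_distrib, ← mul_sum, ← hL]
          linarith
      _ ≤ _ := sum_le_sum this
  -- second moment
  have h2 : ∑ m ∈ Finset.Icc 1 M, (Wt Q w p c m) ^ 2 ≤ M * L ^ 2 + M + M * L := by
    have e1 : ∀ m, (Wt Q w p c m) ^ 2 = ∑ l ∈ Q, ∑ l' ∈ Q,
        (w l * w l') * ((if (l : ℤ) ∣ p * m + c then (1 : ℝ) else 0) *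
          (if (l' : ℤ) ∣ p * m + c then (1 : ℝ) else 0)) := by
      intro m
      rw [sq, Wt, sum_mul_sum]
      refine sum_congr rfl fun l _ => sum_congr rfl fun l' _ => ?_
      ring
    simp only [e1]
    rw [sum_comm]
    calc ∑ l ∈ Q, ∑ m ∈ Finset.Icc 1 M, ∑ l' ∈ Q,
          (w l * w l') * ((if (l : ℤ) ∣ p * m + c then (1 : ℝ) else 0) *
          (if (l' : ℤ) ∣ p * m + c then (1 : ℝ) else 0))
        = ∑ l ∈ Q, ∑ l' ∈ Q, (w l * w l') * ∑ m ∈ Finset.Icc 1 M,
          ((if (l : ℤ) ∣ p * m + c then (1 : ℝ) else 0) *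
          (if (l' : ℤ) ∣ p * m + c then (1 : ℝ) else 0)) := by
          refine sum_congr rfl fun l _ => ?_
          rw [sum_comm]
          refine sum_congr rfl fun l' _ => ?_
          rw [mul_sum]
      _ ≤ ∑ l ∈ Q, ∑ l' ∈ Q, (w l * w l') *
          ((M : ℝ) / l * (1 / l') + 1 + (if l = l' then (M : ℝ) / l else 0)) := by
          refine sum_le_sum fun l hl => sum_le_sum fun l' hl' => ?_
          exact mul_le_mul_of_nonneg_left
            (pair_le p c M l l' (hQ l hl).1 (hQ l' hl').1 (hQ l hl).2.2 (hQ l' hl').2.2)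
            (mul_nonneg (hw l).1 (hw l').1)
      _ = M * L ^ 2 + (∑ l ∈ Q, w l) ^ 2 + ∑ l ∈ Q, w l * w l * (M / l) := by
          have e2 : ∀ l l' : ℕ, (w l * w l') *
              ((M : ℝ) / l * (1 / l') + 1 + (if l = l' then (M : ℝ) / l else 0))
              = M * ((w l / l) * (w l' / l')) + w l * w l' +
                (if l = l' then w l * w l' * ((M : ℝ) / l) else 0) := by
            intro l l'
            split_ifs <;> ring
          simp only [e2, sum_add_distrib]
          congr 1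
          · congr 1
            · rw [hL, sq, sum_mul_sum, mul_sum]
              refine sum_congr rfl fun l _ => ?_
              rw [mul_sum]
            · rw [sq, sum_mul_sum]
          · refine sum_congr rfl fun l hl => ?_
            rw [Finset.sum_ite_eq, if_pos hl]
      _ ≤ M * L ^ 2 + M + M * L := by
          have a1 : (∑ l ∈ Q, w l) ^ 2 ≤ M := by nlinarith
          have a2 : ∑ l ∈ Q, w l * w l * ((M : ℝ) / l) ≤ M * L := by
            rw [hL, mul_sum]
            refine sum_le_sum fun l _ => ?_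
            have b1 := hw l
            have b2 : (0 : ℝ) ≤ (M : ℝ) / l := by positivity
            have b3 : w l * w l ≤ w l := by nlinarith
            calc w l * w l * ((M : ℝ) / l) ≤ w l * ((M : ℝ) / l) :=
                  mul_le_mul_of_nonneg_right b3 b2
              _ = M * (w l / l) := by ring
          linarith
  have h3 : ∑ m ∈ Finset.Icc 1 M, (Wt Q w p c m - L) ^ 2
      = ∑ m ∈ Finset.Icc 1 M, (Wt Q w p c m) ^ 2 - 2 * L * ∑ m ∈ Finset.Icc 1 M, Wt Q w p c m
        + M * L ^ 2 := by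
    have e : ∀ m, (Wt Q w p c m - L) ^ 2 = (Wt Q w p c m) ^ 2 - 2 * L * Wt Q w p c m + L ^ 2 := by
      intro m; ring
    simp only [e, sum_add_distrib, sum_sub_distrib, ← mul_sum]
    congr 1
    simp
  rw [h3]
  have h4 : L * (M * L - y) ≤ L * ∑ m ∈ Finset.Icc 1 M, Wt Q w p c m :=
    mul_le_mul_of_nonneg_left h1 hL0
  have h5 : L * y ≤ L * M := mul_le_mul_of_nonneg_left hyM' hL0
  nlinarith

/-- the average of a product over the prime factors -/
theorem avg_prod (Q : Finset ℕ) (ν : ℕ → ℝ) (p : ℕ) (c : ℤ) (y M : ℕ) (L : ℝ)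
    (hQ : ∀ l ∈ Q, l.Prime ∧ l ≤ y ∧ Nat.Coprime p l) (hν : ∀ l, 0 ≤ ν l ∧ ν l ≤ 1)
    (hy : y ^ 2 ≤ M) (hL : L ≤ ∑ l ∈ Q, (1 - ν l) / l) (hL1 : 1 ≤ L) :
    ∑ m ∈ Finset.Icc 1 M, ∏ l ∈ Q.filter (fun l : ℕ => (l : ℤ) ∣ p * m + c), ν l
      ≤ 18 / L * M := by
  set L' : ℝ := ∑ l ∈ Q, (1 - ν l) / l with hL'
  have hL'1 : 1 ≤ L' := hL1.trans hL
  have hL'0 : 0 < L' := by linarith
  have hw : ∀ l, 0 ≤ 1 - ν l ∧ 1 - ν l ≤ 1 := fun l => ⟨by linarith [(hν l).2], by linarith [(hν l).1]⟩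
  have htk := tk Q (fun l => 1 - ν l) p c y M L' hQ hw hy hL'
  have hpt : ∀ m : ℕ, ∏ l ∈ Q.filter (fun l : ℕ => (l : ℤ) ∣ p * m + c), ν l
      ≤ 2 / L' + 4 / L' ^ 2 * (Wt Q (fun l => 1 - ν l) p c m - L') ^ 2 := by
    intro m
    have h1 : ∏ l ∈ Q.filter (fun l : ℕ => (l : ℤ) ∣ p * m + c), ν l
        ≤ Real.exp (-Wt Q (fun l => 1 - ν l) p c m) := by
      have e : -Wt Q (fun l => 1 - ν l) p c m
          = ∑ l ∈ Q.filter (fun l : ℕ => (l : ℤ) ∣ p * m + c), (-(1 - ν l)) := by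
        rw [Wt, sum_filter, ← sum_neg_distrib]
        refine sum_congr rfl fun l _ => ?_
        split_ifs <;> ring
      rw [e, Real.exp_sum]
      refine prod_le_prod (fun l _ => (hν l).1) fun l _ => ?_
      have := Real.add_one_le_exp (-(1 - ν l))
      linarith
    set W := Wt Q (fun l => 1 - ν l) p c m with hW
    rcases le_total (L' / 2) W with h | h
    · have h2 : Real.exp (-W) ≤ 2 / L' := by
        have h3 : W + 1 ≤ Real.exp W := Real.add_one_le_exp W
        rw [Real.exp_neg, ← one_div, div_le_div_iff₀ (Real.exp_pos _) hL'0]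
        linarith
      have : 0 ≤ 4 / L' ^ 2 * (W - L') ^ 2 := by positivity
      linarith
    · have h2 : ∏ l ∈ Q.filter (fun l : ℕ => (l : ℤ) ∣ p * m + c), ν l ≤ 1 :=
        prod_le_one (fun l _ => (hν l).1) fun l _ => (hν l).2
      have h3 : 1 ≤ 4 / L' ^ 2 * (W - L') ^ 2 := by
        rw [div_mul_eq_mul_div, le_div_iff₀ (by positivity)]
        nlinarith
      have : 0 ≤ 2 / L' := by positivity
      linarith
  have hM : (0 : ℝ) ≤ M := Nat.cast_nonneg M
  calc ∑ m ∈ Finset.Icc 1 M, ∏ l ∈ Q.filter (fun l : ℕ => (l : ℤ) ∣ p * m + c), ν l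
      ≤ ∑ m ∈ Finset.Icc 1 M, (2 / L' + 4 / L' ^ 2 * (Wt Q (fun l => 1 - ν l) p c m - L') ^ 2) :=
        sum_le_sum fun m _ => hpt m
    _ = 2 / L' * M + 4 / L' ^ 2 * ∑ m ∈ Finset.Icc 1 M, (Wt Q (fun l => 1 - ν l) p c m - L') ^ 2 := by
        rw [sum_add_distrib, ← mul_sum]
        congr 1
        simp [mul_comm]
    _ ≤ 2 / L' * M + 4 / L' ^ 2 * ((3 * L' + 1) * M) := by
        have : 0 ≤ 4 / L' ^ 2 := by positivity
        have := mul_le_mul_of_nonneg_left htk this
        linarith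
    _ ≤ 18 / L' * M := by
        have e : 18 / L' * (M : ℝ) - (2 / L' * M + 4 / L' ^ 2 * ((3 * L' + 1) * M))
            = 4 * (L' - 1) * M / L' ^ 2 := by
          field_simp
          ring
        have : 0 ≤ 4 * (L' - 1) * (M : ℝ) / L' ^ 2 := by
          apply div_nonneg _ (by positivity)
          apply mul_nonneg _ hM
          linarith
        linarith
    _ ≤ 18 / L * M := by
        apply mul_le_mul_of_nonneg_right _ hM
        exact div_le_div_of_nonneg_left (by norm_num) (by linarith) hL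

end Pool.Agent.EllRand
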