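import Mathlib
import Pool.Agent.EllRand.TK
import Pool.Agent.EllRand.Indep

set_option autoImplicit false

/-! Random partners in Elliott's conjecture (MP_f3f922_nt): the second moment. -/

namespace Pool.Agent.EllRand

open Finset MeasureTheory ProbabilityTheory
open scoped BigOperators ComplexConjugate

/-- the sequence to which Katai's criterion is applied -/
noncomputable def HH {k : ℕ} (g : Fin (k + 1) → ArithmeticFunction ℂ) (D : ℕ → ℂ) (h0 : ℕ)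
    (s : Fin (k + 1) → ℕ) (n : ℕ) : ℂ :=
  if h0 < n then D (n - h0) * ∏ j, g j (n - h0 + s j) else 0

/-- the four arguments -/
def aa (p q m n : ℕ) : Fin 4 → ℕ := ![p * m, q * m, p * n, q * n]

/-- the four conjugations -/
def bb : Fin 4 → Bool := ![false, true, true, false]

/-- the arguments of the functions -/
def NN {k : ℕ} (h0 : ℕ) (s : Fin (k + 1) → ℕ) (p q m n : ℕ) (i : Fin (k + 1) × Fin 4) : ℕ :=
  aa p q m n i.2 - h0 + s i.1

theorem norm_HH {k : ℕ} (g : Fin (k + 1) → ArithmeticFunction ℂ) (D : ℕ → ℂ) (h0 : ℕ)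
    (s : Fin (k + 1) → ℕ) (hg : ∀ j n, ‖g j n‖ ≤ 1) (hD : ∀ n, ‖D n‖ ≤ 1) (n : ℕ) :
    ‖HH g D h0 s n‖ ≤ 1 := by
  unfold HH
  split_ifs
  · rw [norm_mul, norm_prod]
    exact mul_le_one₀ (hD _) (prod_nonneg fun _ _ => norm_nonneg _)
      (prod_le_one (fun _ _ => norm_nonneg _) fun _ _ => hg _ _)
  · simp

/-- the constant factor -/
noncomputable def CC (D : ℕ → ℂ) (h0 p q m n : ℕ) : ℂ :=
  D (p * m - h0) * conj (D (q * m - h0)) * conj (D (p * n - h0)) * D (q * n - h0)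

theorem norm_CC (D : ℕ → ℂ) (hD : ∀ n, ‖D n‖ ≤ 1) (h0 p q m n : ℕ) : ‖CC D h0 p q m n‖ ≤ 1 := by
  unfold CC
  rw [norm_mul, norm_mul, norm_mul, RCLike.norm_conj, RCLike.norm_conj]
  have h1 := hD (p * m - h0)
  have h2 := hD (q * m - h0)
  have h3 := hD (p * n - h0)
  have h4 := hD (q * n - h0)
  have a1 := norm_nonneg (D (p * m - h0))
  have a2 := norm_nonneg (D (q * m - h0))
  have a3 := norm_nonneg (D (p * n - h0))
  have a4 := norm_nonneg (D (q * n - h0))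
  exact mul_le_one₀ (mul_le_one₀ (mul_le_one₀ h1 a2 h2) a3 h3) a4 h4

theorem term_eq {k : ℕ} (g : Fin (k + 1) → ArithmeticFunction ℂ) (D : ℕ → ℂ) (h0 : ℕ)
    (s : Fin (k + 1) → ℕ) (p q m n : ℕ) (hp : h0 < p) (hq : h0 < q) (hm : 1 ≤ m) (hn : 1 ≤ n) :
    HH g D h0 s (p * m) * conj (HH g D h0 s (q * m)) *
      conj (HH g D h0 s (p * n) * conj (HH g D h0 s (q * n)))
    = CC D h0 p q m n * ∏ i : Fin (k + 1) × Fin 4, cj (bb i.2) (g i.1 (NN h0 s p q m n i)) := by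
  have e1 : h0 < p * m := lt_of_lt_of_le hp (Nat.le_mul_of_pos_right p hm)
  have e2 : h0 < q * m := lt_of_lt_of_le hq (Nat.le_mul_of_pos_right q hm)
  have e3 : h0 < p * n := lt_of_lt_of_le hp (Nat.le_mul_of_pos_right p hn)
  have e4 : h0 < q * n := lt_of_lt_of_le hq (Nat.le_mul_of_pos_right q hn)
  have e5 : ∏ i : Fin (k + 1) × Fin 4, cj (bb i.2) (g i.1 (NN h0 s p q m n i))
      = (∏ j, g j (p * m - h0 + s j)) * conj (∏ j, g j (q * m - h0 + s j)) *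
        conj (∏ j, g j (p * n - h0 + s j)) * ∏ j, g j (q * n - h0 + s j) := by
    rw [Fintype.prod_prod_type, map_prod, map_prod, ← prod_mul_distrib, ← prod_mul_distrib,
      ← prod_mul_distrib]
    refine prod_congr rfl fun j _ => ?_
    rw [Fin.prod_univ_four]
    simp [NN, aa, bb, cj]
  rw [e5]
  unfold HH CC
  rw [if_pos e1, if_pos e2, if_pos e3, if_pos e4]
  simp only [map_mul, Complex.conj_conj]
  ring

/-- `NN` as an integer -/
theorem NN_cast {k : ℕ} (h0 : ℕ) (s : Fin (k + 1) → ℕ) (p q m n : ℕ) (hp : h0 < p) (hq : h0 < q)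
    (hm : 1 ≤ m) (hn : 1 ≤ n) (i : Fin (k + 1) × Fin 4) :
    ((NN h0 s p q m n i : ℕ) : ℤ) = aa p q m n i.2 + ((s i.1 : ℤ) - h0) := by
  have e1 : h0 ≤ p * m := hp.le.trans (Nat.le_mul_of_pos_right p hm)
  have e2 : h0 ≤ q * m := hq.le.trans (Nat.le_mul_of_pos_right q hm)
  have e3 : h0 ≤ p * n := hp.le.trans (Nat.le_mul_of_pos_right p hn)
  have e4 : h0 ≤ q * n := hq.le.trans (Nat.le_mul_of_pos_right q hn)
  have : h0 ≤ aa p q m n i.2 := by
    obtain ⟨j, t⟩ := i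
    fin_cases t <;> simpa [aa]
  unfold NN
  push_cast [Nat.cast_sub this]
  ring

theorem NN_pos {k : ℕ} (h0 : ℕ) (s : Fin (k + 1) → ℕ) (p q m n : ℕ) (hp : h0 < p) (hq : h0 < q)
    (hm : 1 ≤ m) (hn : 1 ≤ n) (i : Fin (k + 1) × Fin 4) : NN h0 s p q m n i ≠ 0 := by
  have e1 : h0 < p * m := lt_of_lt_of_le hp (Nat.le_mul_of_pos_right p hm)
  have e2 : h0 < q * m := lt_of_lt_of_le hq (Nat.le_mul_of_pos_right q hm)
  have e3 : h0 < p * n := lt_of_lt_of_le hp (Nat.le_mul_of_pos_right p hn)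
  have e4 : h0 < q * n := lt_of_lt_of_le hq (Nat.le_mul_of_pos_right q hn)
  have : h0 < aa p q m n i.2 := by
    obtain ⟨j, t⟩ := i
    fin_cases t <;> simpa [aa]
  unfold NN
  omega

/-- the arithmetic conditions on the parameters -/
structure Par {k : ℕ} (h0 : ℕ) (s : Fin (k + 1) → ℕ) (a : Fin (k + 1)) (p q z : ℕ) : Prop where
  inj : Function.Injective s
  ne : ∀ j, s j ≠ h0
  pp : p.Prime
  qp : q.Prime
  pq : p ≠ q
  hp : h0 < p
  hq : h0 < q
  sp : s a < p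
  z1 : 1 ≤ z
  pz : p ≤ z
  qz : q ≤ z
  d1 : ∀ j, |(s j : ℤ) - s a| ≤ z
  d2 : ∀ j, |(q : ℤ) * ((s a : ℤ) - h0) - p * ((s j : ℤ) - h0)| ≤ z

theorem not_dvd {k : ℕ} {h0 : ℕ} {s : Fin (k + 1) → ℕ} {a : Fin (k + 1)} {p q z : ℕ}
    (H : Par h0 s a p q z) (m n l : ℕ) (hm : 1 ≤ m) (hn : 1 ≤ n) (hz : z < l)
    (hdv : (l : ℤ) ∣ p * m + ((s a : ℤ) - h0))
    (hb2 : ∀ j, ¬ (l : ℤ) ∣ p * n + ((s j : ℤ) - h0) ∧ ¬ (l : ℤ) ∣ q * n + ((s j : ℤ) - h0))
    (i : Fin (k + 1) × Fin 4) (hi : i ≠ (a, 0)) : ¬ l ∣ NN h0 s p q m n i := by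
  intro hl
  have hl' : (l : ℤ) ∣ (NN h0 s p q m n i : ℕ) := by exact_mod_cast hl
  rw [NN_cast h0 s p q m n H.hp H.hq hm hn] at hl'
  obtain ⟨j, t⟩ := i
  have hzl : (z : ℤ) < l := by exact_mod_cast hz
  fin_cases t
  · -- `p m`
    have hj : j ≠ a := by
      rintro rfl
      exact hi rfl
    simp only [aa] at hl'
    have h1 : (l : ℤ) ∣ (s j : ℤ) - s a := by
      have := dvd_sub hl' hdv
      have e : ((((![p * m, q * m, p * n, q * n] : Fin 4 → ℕ) 0 : ℕ) : ℤ) + ((s j : ℤ) - h0)) -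
          (p * m + ((s a : ℤ) - h0)) = (s j : ℤ) - s a := by
        simp
      exact e ▸ this
    have h2 := Int.eq_zero_of_abs_lt_dvd h1 ((H.d1 j).trans_lt hzl)
    apply hj
    apply H.inj
    have : (s j : ℤ) = s a := by linarith
    exact_mod_cast this
  · -- `q m`
    have e : ((((![p * m, q * m, p * n, q * n] : Fin 4 → ℕ) 1 : ℕ) : ℤ)) = q * m := by
      simp
    have hl2 : (l : ℤ) ∣ q * m + ((s j : ℤ) - h0) := e ▸ hl'
    have h1 : (l : ℤ) ∣ (q : ℤ) * ((s a : ℤ) - h0) - p * ((s j : ℤ) - h0) := by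
      have := dvd_sub (Dvd.dvd.mul_left hdv (q : ℤ)) (Dvd.dvd.mul_left hl2 (p : ℤ))
      have e2 : (q : ℤ) * (p * m + ((s a : ℤ) - h0)) - p * (q * m + ((s j : ℤ) - h0))
          = (q : ℤ) * ((s a : ℤ) - h0) - p * ((s j : ℤ) - h0) := by ring
      exact e2 ▸ this
    have h2 := Int.eq_zero_of_abs_lt_dvd h1 ((H.d2 j).trans_lt hzl)
    have h3 : (p : ℤ) ∣ (q : ℤ) * ((s a : ℤ) - h0) := ⟨(s j : ℤ) - h0, by linarith⟩
    have h4 : (p : ℤ) ∣ (s a : ℤ) - h0 := by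
      have hco : IsCoprime (p : ℤ) (q : ℤ) :=
        Nat.isCoprime_iff_coprime.mpr ((Nat.coprime_primes H.pp H.qp).mpr H.pq)
      exact hco.dvd_of_dvd_mul_left h3
    have h5 : |(s a : ℤ) - h0| < p := by
      have b1 : (s a : ℤ) < p := by exact_mod_cast H.sp
      have b2 : (h0 : ℤ) < p := by exact_mod_cast H.hp
      rw [abs_lt]
      constructor <;> [skip; skip]
      · have : (0 : ℤ) ≤ s a := Int.natCast_nonneg _
        linarith
      · have : (0 : ℤ) ≤ h0 := Int.natCast_nonneg _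
        linarith
    have h6 := Int.eq_zero_of_abs_lt_dvd h4 h5
    apply H.ne a
    have : (s a : ℤ) = h0 := by linarith
    exact_mod_cast this
  · have e : ((((![p * m, q * m, p * n, q * n] : Fin 4 → ℕ) 2 : ℕ) : ℤ)) = p * n := by
      simp
    exact (hb2 j).1 (e ▸ hl')
  · have e : ((((![p * m, q * m, p * n, q * n] : Fin 4 → ℕ) 3 : ℕ) : ℤ)) = q * n := by
      simp
    exact (hb2 j).2 (e ▸ hl')

end Pool.Agent.EllRand
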