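import Mathlib
import Pool.Agent.EllRand.Mom

set_option autoImplicit false

/-! Random partners in Elliott's conjecture (MP_f3f922_nt): the second moment. -/

namespace Pool.Agent.EllRand

open Finset MeasureTheory ProbabilityTheory
open scoped BigOperators ComplexConjugate

/-- hypotheses on the random functions -/
structure Rnd {Ω : Type} [MeasurableSpace Ω] (μ : Measure Ω) {k : ℕ}
    (g : Fin (k + 1) → Ω → ArithmeticFunction ℂ) : Prop where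
  meas : ∀ j n, Measurable fun ω => g j ω n
  mul : ∀ j ω, (g j ω).IsMultiplicative
  bd : ∀ j ω n, ‖g j ω n‖ ≤ 1
  ind : iIndepFun (fun (p : Nat.Primes) ω (i : Fin (k + 1) × ℕ) => g i.1 ω ((p : ℕ) ^ i.2)) μ

/-- one term of the correlation -/
noncomputable def XX {Ω : Type} {k : ℕ} (g : Fin (k + 1) → Ω → ArithmeticFunction ℂ) (D : ℕ → ℂ)
    (h0 : ℕ) (s : Fin (k + 1) → ℕ) (p q : ℕ) (m : ℕ) (ω : Ω) : ℂ :=
  HH (fun j => g j ω) D h0 s (p * m) * conj (HH (fun j => g j ω) D h0 s (q * m))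

variable {Ω : Type} [MeasurableSpace Ω] {μ : Measure Ω} [IsProbabilityMeasure μ] {k : ℕ}
  {g : Fin (k + 1) → Ω → ArithmeticFunction ℂ}

theorem meas_HH (G : Rnd μ g) (D : ℕ → ℂ) (h0 : ℕ) (s : Fin (k + 1) → ℕ) (n : ℕ) :
    Measurable fun ω => HH (fun j => g j ω) D h0 s n := by
  unfold HH
  split_ifs
  · exact measurable_const.mul (Finset.measurable_prod _ fun j _ => G.meas j _)
  · exact measurable_const

theorem meas_XX (G : Rnd μ g) (D : ℕ → ℂ) (h0 : ℕ) (s : Fin (k + 1) → ℕ) (p q m : ℕ) :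
    Measurable (XX g D h0 s p q m) := by
  unfold XX
  exact (meas_HH G D h0 s _).mul (Complex.continuous_conj.measurable.comp (meas_HH G D h0 s _))

theorem norm_XX (G : Rnd μ g) (D : ℕ → ℂ) (hD : ∀ n, ‖D n‖ ≤ 1) (h0 : ℕ)
    (s : Fin (k + 1) → ℕ) (p q m : ℕ) (ω : Ω) : ‖XX g D h0 s p q m ω‖ ≤ 1 := by
  unfold XX
  rw [norm_mul, RCLike.norm_conj]
  exact mul_le_one₀ (norm_HH _ D h0 s (fun j n => G.bd j ω n) hD _) (norm_nonneg _)
    (norm_HH _ D h0 s (fun j n => G.bd j ω n) hD _)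

theorem int_bound (F : Ω → ℂ) (hF : ∀ ω, ‖F ω‖ ≤ 1) : ‖∫ ω, F ω ∂μ‖ ≤ 1 := by
  have h1 : ‖∫ ω, F ω ∂μ‖ ≤ 1 * μ.real Set.univ :=
    norm_integral_le_of_norm_le_const (Filter.Eventually.of_forall hF)
  simpa using h1

/-- good pairs -/
theorem good_bound (G : Rnd μ g) (D : ℕ → ℂ) (hD : ∀ n, ‖D n‖ ≤ 1) (h0 : ℕ)
    (s : Fin (k + 1) → ℕ) (a : Fin (k + 1)) (p q z : ℕ) (H : Par h0 s a p q z)
    (Q : Finset ℕ) (hQ : ∀ l ∈ Q, l.Prime ∧ z < l) (m n : ℕ) (hm : 1 ≤ m) (hn : 1 ≤ n)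
    (h1 : ∀ l ∈ Q, ¬ ((l ^ 2 : ℕ) : ℤ) ∣ p * m + ((s a : ℤ) - h0))
    (h2 : ∀ l ∈ Q, (l : ℤ) ∣ p * m + ((s a : ℤ) - h0) →
      ∀ j, ¬ (l : ℤ) ∣ p * n + ((s j : ℤ) - h0) ∧ ¬ (l : ℤ) ∣ q * n + ((s j : ℤ) - h0)) :
    ‖∫ ω, XX g D h0 s p q m ω * conj (XX g D h0 s p q n ω) ∂μ‖
      ≤ ∏ l ∈ Q.filter (fun l : ℕ => (l : ℤ) ∣ p * m + ((s a : ℤ) - h0)), ‖∫ ω, g a ω l ∂μ‖ := by
  have e1 : ∀ ω, XX g D h0 s p q m ω * conj (XX g D h0 s p q n ω)
      = CC D h0 p q m n * ∏ i : Fin (k + 1) × Fin 4, cj (bb i.2) (g i.1 ω (NN h0 s p q m n i)) := by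
    intro ω
    exact term_eq (fun j => g j ω) D h0 s p q m n H.hp H.hq hm hn
  simp only [e1]
  rw [integral_const_mul, norm_mul]
  have h3 := exp_bound μ g G.meas G.mul G.bd G.ind (fun i : Fin (k + 1) × Fin 4 => i.1)
    (fun i => bb i.2) (NN h0 s p q m n) (fun i => NN_pos h0 s p q m n H.hp H.hq hm hn i) (a, 0) rfl
    (Q.filter (fun l : ℕ => (l : ℤ) ∣ p * m + ((s a : ℤ) - h0))) ?_
  · calc _ ≤ 1 * _ := mul_le_mul (norm_CC D hD h0 p q m n) h3 (norm_nonneg _) zero_le_one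
      _ = _ := one_mul _
  · intro l hl
    rw [Finset.mem_filter] at hl
    obtain ⟨hlQ, hdv⟩ := hl
    have hlp := (hQ l hlQ).1
    have hcast : ((NN h0 s p q m n (a, 0) : ℕ) : ℤ) = p * m + ((s a : ℤ) - h0) := by
      rw [NN_cast h0 s p q m n H.hp H.hq hm hn]
      simp [aa]
    refine ⟨hlp, ?_, fun i hi => not_dvd H m n l hm hn (hQ l hlQ).2 hdv (h2 l hlQ hdv) i hi⟩
    have hN0 := NN_pos h0 s p q m n H.hp H.hq hm hn (a, 0)
    have d1 : l ∣ NN h0 s p q m n (a, 0) := by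
      have : (l : ℤ) ∣ ((NN h0 s p q m n (a, 0) : ℕ) : ℤ) := hcast ▸ hdv
      exact_mod_cast this
    have d2 : ¬ l ^ 2 ∣ NN h0 s p q m n (a, 0) := by
      intro hc
      apply h1 l hlQ
      rw [← hcast]
      exact_mod_cast hc
    have f1 := (hlp.dvd_iff_one_le_factorization hN0).mp d1
    have f2 : ¬ 2 ≤ (NN h0 s p q m n (a, 0)).factorization l := by
      intro hc
      exact d2 ((hlp.pow_dvd_iff_le_factorization hN0).mpr hc)
    omega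

/-- indicator of `l ∣ p m + c` -/
noncomputable def I (l : ℕ) (p : ℕ) (c : ℤ) (m : ℕ) : ℝ := if (l : ℤ) ∣ p * m + c then 1 else 0

theorem I_nonneg (l p : ℕ) (c : ℤ) (m : ℕ) : 0 ≤ I l p c m := by
  unfold I; split_ifs <;> norm_num

/-- all pairs -/
theorem all_bound (G : Rnd μ g) (D : ℕ → ℂ) (hD : ∀ n, ‖D n‖ ≤ 1) (h0 : ℕ)
    (s : Fin (k + 1) → ℕ) (a : Fin (k + 1)) (p q z : ℕ) (H : Par h0 s a p q z)
    (Q : Finset ℕ) (hQ : ∀ l ∈ Q, l.Prime ∧ z < l) (m n : ℕ) (hm : 1 ≤ m) (hn : 1 ≤ n) :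
    ‖∫ ω, XX g D h0 s p q m ω * conj (XX g D h0 s p q n ω) ∂μ‖
      ≤ ∏ l ∈ Q.filter (fun l : ℕ => (l : ℤ) ∣ p * m + ((s a : ℤ) - h0)), ‖∫ ω, g a ω l ∂μ‖
        + ∑ l ∈ Q, I (l ^ 2) p ((s a : ℤ) - h0) m
        + ∑ l ∈ Q, ∑ j, I l p ((s a : ℤ) - h0) m *
            (I l p ((s j : ℤ) - h0) n + I l q ((s j : ℤ) - h0) n) := by
  have hP : 0 ≤ ∏ l ∈ Q.filter (fun l : ℕ => (l : ℤ) ∣ p * m + ((s a : ℤ) - h0)),
      ‖∫ ω, g a ω l ∂μ‖ := prod_nonneg fun _ _ => norm_nonneg _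
  have hS1 : 0 ≤ ∑ l ∈ Q, I (l ^ 2) p ((s a : ℤ) - h0) m := sum_nonneg fun _ _ => I_nonneg _ _ _ _
  have hT : ∀ l, ∀ j : Fin (k + 1), 0 ≤ I l p ((s a : ℤ) - h0) m *
      (I l p ((s j : ℤ) - h0) n + I l q ((s j : ℤ) - h0) n) := fun l j =>
    mul_nonneg (I_nonneg _ _ _ _) (add_nonneg (I_nonneg _ _ _ _) (I_nonneg _ _ _ _))
  have hS2 : 0 ≤ ∑ l ∈ Q, ∑ j, I l p ((s a : ℤ) - h0) m *
      (I l p ((s j : ℤ) - h0) n + I l q ((s j : ℤ) - h0) n) :=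
    sum_nonneg fun l _ => sum_nonneg fun j _ => hT l j
  have hone : ‖∫ ω, XX g D h0 s p q m ω * conj (XX g D h0 s p q n ω) ∂μ‖ ≤ 1 := by
    refine int_bound _ fun ω => ?_
    rw [norm_mul, RCLike.norm_conj]
    exact mul_le_one₀ (norm_XX G D hD h0 s p q m ω) (norm_nonneg _) (norm_XX G D hD h0 s p q n ω)
  by_cases h1 : ∀ l ∈ Q, ¬ ((l ^ 2 : ℕ) : ℤ) ∣ p * m + ((s a : ℤ) - h0)
  · by_cases h2 : ∀ l ∈ Q, (l : ℤ) ∣ p * m + ((s a : ℤ) - h0) →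
      ∀ j, ¬ (l : ℤ) ∣ p * n + ((s j : ℤ) - h0) ∧ ¬ (l : ℤ) ∣ q * n + ((s j : ℤ) - h0)
    · have := good_bound G D hD h0 s a p q z H Q hQ m n hm hn h1 h2
      linarith
    · push Not at h2
      obtain ⟨l, hl, hd, j, hj⟩ := h2
      have h3 : 1 ≤ I l p ((s a : ℤ) - h0) m *
          (I l p ((s j : ℤ) - h0) n + I l q ((s j : ℤ) - h0) n) := by
        by_cases h4 : (l : ℤ) ∣ p * n + ((s j : ℤ) - h0)
        · have e1 : I l p ((s a : ℤ) - h0) m = 1 := by unfold I; rw [if_pos hd]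
          have e2 : I l p ((s j : ℤ) - h0) n = 1 := by unfold I; rw [if_pos h4]
          rw [e1, e2]
          have := I_nonneg l q ((s j : ℤ) - h0) n
          linarith
        · have h5 := hj h4
          have e1 : I l p ((s a : ℤ) - h0) m = 1 := by unfold I; rw [if_pos hd]
          have e2 : I l q ((s j : ℤ) - h0) n = 1 := by unfold I; rw [if_pos h5]
          rw [e1, e2]
          have := I_nonneg l p ((s j : ℤ) - h0) n
          linarith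
      have h4 : 1 ≤ ∑ l ∈ Q, ∑ j, I l p ((s a : ℤ) - h0) m *
          (I l p ((s j : ℤ) - h0) n + I l q ((s j : ℤ) - h0) n) := by
        calc (1 : ℝ) ≤ _ := h3
          _ ≤ ∑ j, I l p ((s a : ℤ) - h0) m *
              (I l p ((s j : ℤ) - h0) n + I l q ((s j : ℤ) - h0) n) :=
              Finset.single_le_sum (f := fun j => I l p ((s a : ℤ) - h0) m *
                (I l p ((s j : ℤ) - h0) n + I l q ((s j : ℤ) - h0) n))
                (fun j _ => hT l j) (Finset.mem_univ j)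
          _ ≤ _ := Finset.single_le_sum (f := fun l => ∑ j, I l p ((s a : ℤ) - h0) m *
                (I l p ((s j : ℤ) - h0) n + I l q ((s j : ℤ) - h0) n))
                (fun l _ => sum_nonneg fun j _ => hT l j) hl
      linarith
  · push Not at h1
    obtain ⟨l, hl, hd⟩ := h1
    have h3 : (1 : ℝ) ≤ ∑ l ∈ Q, I (l ^ 2) p ((s a : ℤ) - h0) m := by
      calc (1 : ℝ) = I (l ^ 2) p ((s a : ℤ) - h0) m := by unfold I; rw [if_pos hd]
        _ ≤ _ := Finset.single_le_sum (f := fun l => I (l ^ 2) p ((s a : ℤ) - h0) m)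
            (fun l _ => I_nonneg _ _ _ _) hl
    linarith

end Pool.Agent.EllRand
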