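import Mathlib
import Pool.Agent.EllRand.Mom2

set_option autoImplicit false

/-! Random partners in Elliott's conjecture (MP_f3f922_nt): the second moment. -/

namespace Pool.Agent.EllRand

open Finset MeasureTheory ProbabilityTheory
open scoped BigOperators ComplexConjugate

theorem sum_I (l p : ℕ) (c : ℤ) (M : ℕ) :
    ∑ m ∈ Finset.Icc 1 M, I l p c m
      = (((Finset.Icc 1 M).filter (fun m : ℕ => (l : ℤ) ∣ p * m + c)).card : ℝ) := by
  unfold I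
  exact sum_ite_card M _

/-- the primes in `(z, y]` -/
def PR (z y : ℕ) : Finset ℕ := (Finset.Ioc z y).filter Nat.Prime

theorem mem_PR {z y l : ℕ} : l ∈ PR z y ↔ (z < l ∧ l ≤ y) ∧ l.Prime := by
  unfold PR
  rw [Finset.mem_filter, Finset.mem_Ioc]

theorem sum_sq (z y : ℕ) (hz : 1 ≤ z) : ∑ l ∈ PR z y, 1 / (l : ℝ) ^ 2 ≤ 1 / (z : ℝ) := by
  rcases le_total z y with h | h
  · calc ∑ l ∈ PR z y, 1 / (l : ℝ) ^ 2 ≤ ∑ l ∈ Finset.Ioc z y, 1 / (l : ℝ) ^ 2 :=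
          sum_le_sum_of_subset_of_nonneg (filter_subset _ _) fun _ _ _ => by positivity
      _ = ∑ l ∈ Finset.Ioc z y, ((l : ℝ) ^ 2)⁻¹ := by simp [one_div]
      _ ≤ (z : ℝ)⁻¹ - (y : ℝ)⁻¹ := sum_Ioc_inv_sq_le_sub (by omega) h
      _ ≤ 1 / z := by
          have : (0 : ℝ) ≤ (y : ℝ)⁻¹ := by positivity
          rw [one_div]
          linarith
  · have : PR z y = ∅ := by
      ext l
      simp only [mem_PR, Finset.notMem_empty, iff_false]
      rintro ⟨⟨h1, h2⟩, _⟩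
      omega
    rw [this]
    simp

theorem card_PR (z y : ℕ) : ((PR z y).card : ℝ) ≤ y := by
  have : PR z y ⊆ Finset.Icc 1 y := by
    intro l hl
    rw [mem_PR] at hl
    rw [Finset.mem_Icc]
    exact ⟨hl.2.pos, hl.1.2⟩
  have := card_le_card this
  rw [Nat.card_Icc] at this
  exact_mod_cast this

/-- the square of the norm of a sum -/
theorem sq_sum {Ω : Type} [MeasurableSpace Ω] (μ : Measure Ω) [IsProbabilityMeasure μ]
    (X : ℕ → Ω → ℂ) (hX : ∀ m, Measurable (X m)) (hb : ∀ m ω, ‖X m ω‖ ≤ 1) (s : Finset ℕ) :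
    ∫ ω, ‖∑ m ∈ s, X m ω‖ ^ 2 ∂μ ≤ ∑ m ∈ s, ∑ n ∈ s, ‖∫ ω, X m ω * conj (X n ω) ∂μ‖ := by
  have hint : ∀ m n, Integrable (fun ω => X m ω * conj (X n ω)) μ := by
    intro m n
    refine Integrable.of_bound ((hX m).mul
      (Complex.continuous_conj.measurable.comp (hX n))).aestronglyMeasurable 1
      (Filter.Eventually.of_forall fun ω => ?_)
    rw [norm_mul, RCLike.norm_conj]
    exact mul_le_one₀ (hb m ω) (norm_nonneg _) (hb n ω)
  have e1 : ((∫ ω, ‖∑ m ∈ s, X m ω‖ ^ 2 ∂μ : ℝ) : ℂ)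
      = ∑ m ∈ s, ∑ n ∈ s, ∫ ω, X m ω * conj (X n ω) ∂μ := by
    rw [← integral_complex_ofReal]
    have e2 : ∀ ω, ((‖∑ m ∈ s, X m ω‖ ^ 2 : ℝ) : ℂ) = ∑ m ∈ s, ∑ n ∈ s, X m ω * conj (X n ω) := by
      intro ω
      rw [← Complex.normSq_eq_norm_sq, ← Complex.mul_conj, map_sum, sum_mul_sum]
    simp only [e2]
    rw [integral_finsetSum _ fun m _ => integrable_finsetSum _ fun n _ => hint m n]
    refine sum_congr rfl fun m _ => ?_
    rw [integral_finsetSum _ fun n _ => hint m n]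
  have h0 : 0 ≤ ∫ ω, ‖∑ m ∈ s, X m ω‖ ^ 2 ∂μ := integral_nonneg fun ω => by positivity
  calc ∫ ω, ‖∑ m ∈ s, X m ω‖ ^ 2 ∂μ = ‖((∫ ω, ‖∑ m ∈ s, X m ω‖ ^ 2 ∂μ : ℝ) : ℂ)‖ := by
        rw [Complex.norm_real, Real.norm_of_nonneg h0]
    _ = ‖∑ m ∈ s, ∑ n ∈ s, ∫ ω, X m ω * conj (X n ω) ∂μ‖ := by rw [e1]
    _ ≤ ∑ m ∈ s, ∑ n ∈ s, ‖∫ ω, X m ω * conj (X n ω) ∂μ‖ :=
        (norm_sum_le _ _).trans (sum_le_sum fun m _ => norm_sum_le _ _)

variable {Ω : Type} [MeasurableSpace Ω] {μ : Measure Ω} [IsProbabilityMeasure μ] {k : ℕ}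
  {g : Fin (k + 1) → Ω → ArithmeticFunction ℂ}

/-- the second moment of the correlation -/
theorem mom (G : Rnd μ g) (D : ℕ → ℂ) (hD : ∀ n, ‖D n‖ ≤ 1) (h0 : ℕ)
    (s : Fin (k + 1) → ℕ) (a : Fin (k + 1)) (p q z : ℕ) (H : Par h0 s a p q z)
    (y M : ℕ) (L : ℝ) (hy : y ^ 2 ≤ M)
    (hL : L ≤ ∑ l ∈ PR z y, (1 - ‖∫ ω, g a ω l ∂μ‖) / l) (hL1 : 1 ≤ L) :
    ∫ ω, ‖∑ m ∈ Finset.Icc 1 M, XX g D h0 s p q m ω‖ ^ 2 ∂μ
      ≤ (M : ℝ) ^ 2 * (18 / L + (8 * k + 9) / z) + M * y := by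
  have hz : 1 ≤ z := H.z1
  have hz0 : (0 : ℝ) < z := by exact_mod_cast hz
  have hM0 : (0 : ℝ) ≤ M := Nat.cast_nonneg M
  have hyM : y ≤ M := by nlinarith [Nat.zero_le y]
  have hyM' : (y : ℝ) ≤ M := by exact_mod_cast hyM
  have hcop : ∀ r l : ℕ, r.Prime → r ≤ z → l ∈ PR z y → Nat.Coprime r l := by
    intro r l hr hrz hl
    rw [mem_PR] at hl
    exact (Nat.coprime_primes hr hl.2).mpr (by omega)
  have hQ1 : ∀ l ∈ PR z y, l.Prime ∧ z < l := by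
    intro l hl
    rw [mem_PR] at hl
    exact ⟨hl.2, hl.1.1⟩
  have hQ2 : ∀ l ∈ PR z y, l.Prime ∧ l ≤ y ∧ Nat.Coprime p l := by
    intro l hl
    refine ⟨(hQ1 l hl).1, ?_, hcop p l H.pp H.pz hl⟩
    rw [mem_PR] at hl
    exact hl.1.2
  have hν : ∀ l : ℕ, 0 ≤ ‖∫ ω, g a ω l ∂μ‖ ∧ ‖∫ ω, g a ω l ∂μ‖ ≤ 1 := fun l =>
    ⟨norm_nonneg _, int_bound _ fun ω => G.bd a ω l⟩
  set c : Fin (k + 1) → ℤ := fun j => (s j : ℤ) - h0 with hc
  set F : ℕ → ℝ := fun m => ∏ l ∈ (PR z y).filter (fun l : ℕ => (l : ℤ) ∣ p * m + c a),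
    ‖∫ ω, g a ω l ∂μ‖ with hF
  have hF0 : ∑ m ∈ Finset.Icc 1 M, F m ≤ 18 / L * M :=
    avg_prod (PR z y) (fun l => ‖∫ ω, g a ω l ∂μ‖) p (c a) y M L hQ2 hν hy hL hL1
  -- the two error terms
  have hA : ∑ m ∈ Finset.Icc 1 M, ∑ l ∈ PR z y, I (l ^ 2) p (c a) m ≤ M / z + y := by
    rw [sum_comm]
    calc ∑ l ∈ PR z y, ∑ m ∈ Finset.Icc 1 M, I (l ^ 2) p (c a) m
        ≤ ∑ l ∈ PR z y, ((M : ℝ) * (1 / (l : ℝ) ^ 2) + 1) := by
          refine sum_le_sum fun l hl => ?_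
          rw [sum_I]
          have := cnt_le p (c a) (l ^ 2) M (pow_pos (hQ1 l hl).1.pos 2)
            ((hcop p l H.pp H.pz hl).pow_right 2)
          calc _ ≤ _ := this
            _ = _ := by push_cast; ring
      _ = M * ∑ l ∈ PR z y, 1 / (l : ℝ) ^ 2 + (PR z y).card := by
          rw [sum_add_distrib, ← mul_sum]
          simp
      _ ≤ M * (1 / z) + y := by
          have h1 := mul_le_mul_of_nonneg_left (sum_sq z y hz) hM0
          have h2 := card_PR z y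
          linarith
      _ = _ := by ring
  have hcount : ∀ (r : ℕ) (j : Fin (k + 1)) (l : ℕ), r.Prime → r ≤ z → l ∈ PR z y →
      ∑ m ∈ Finset.Icc 1 M, I l r (c j) m ≤ 2 * M * (1 / l) := by
    intro r j l hr hrz hl
    rw [sum_I]
    have h1 := cnt_le r (c j) l M (hQ1 l hl).1.pos (hcop r l hr hrz hl)
    have hl0 : (0 : ℝ) < l := by exact_mod_cast (hQ1 l hl).1.pos
    have h2 : (1 : ℝ) ≤ M / l := by
      rw [one_le_div hl0]
      have : l ≤ y := (hQ2 l hl).2.1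
      exact_mod_cast this.trans hyM
    calc _ ≤ _ := h1
      _ ≤ (M : ℝ) / l + M / l := by linarith
      _ = _ := by ring
  have hB : ∑ m ∈ Finset.Icc 1 M, ∑ n ∈ Finset.Icc 1 M, ∑ l ∈ PR z y, ∑ j, I l p (c a) m *
      (I l p (c j) n + I l q (c j) n) ≤ (M : ℝ) ^ 2 * ((8 * k + 8) / z) := by
    have e1 : ∑ m ∈ Finset.Icc 1 M, ∑ n ∈ Finset.Icc 1 M, ∑ l ∈ PR z y, ∑ j, I l p (c a) m *
        (I l p (c j) n + I l q (c j) n)
        = ∑ l ∈ PR z y, ∑ j, (∑ m ∈ Finset.Icc 1 M, I l p (c a) m) *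
          (∑ n ∈ Finset.Icc 1 M, I l p (c j) n + ∑ n ∈ Finset.Icc 1 M, I l q (c j) n) := by
      calc _ = ∑ m ∈ Finset.Icc 1 M, ∑ l ∈ PR z y, ∑ n ∈ Finset.Icc 1 M, ∑ j, I l p (c a) m *
            (I l p (c j) n + I l q (c j) n) := sum_congr rfl fun m _ => sum_comm
        _ = ∑ l ∈ PR z y, ∑ m ∈ Finset.Icc 1 M, ∑ n ∈ Finset.Icc 1 M, ∑ j, I l p (c a) m *
            (I l p (c j) n + I l q (c j) n) := sum_comm
        _ = ∑ l ∈ PR z y, ∑ m ∈ Finset.Icc 1 M, ∑ j, ∑ n ∈ Finset.Icc 1 M, I l p (c a) m *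
            (I l p (c j) n + I l q (c j) n) :=
            sum_congr rfl fun l _ => sum_congr rfl fun m _ => sum_comm
        _ = ∑ l ∈ PR z y, ∑ j, ∑ m ∈ Finset.Icc 1 M, ∑ n ∈ Finset.Icc 1 M, I l p (c a) m *
            (I l p (c j) n + I l q (c j) n) := sum_congr rfl fun l _ => sum_comm
        _ = _ := by
            refine sum_congr rfl fun l _ => sum_congr rfl fun j _ => ?_
            rw [← sum_add_distrib, sum_mul_sum]
    rw [e1]
    calc _ ≤ ∑ l ∈ PR z y, ∑ j : Fin (k + 1), (2 * M * (1 / (l : ℝ))) *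
          (2 * M * (1 / (l : ℝ)) + 2 * M * (1 / (l : ℝ))) := by
          refine sum_le_sum fun l hl => sum_le_sum fun j _ => ?_
          have a1 := hcount p a l H.pp H.pz hl
          have a2 := hcount p j l H.pp H.pz hl
          have a3 := hcount q j l H.qp H.qz hl
          refine mul_le_mul a1 (add_le_add a2 a3) ?_ (by positivity)
          exact add_nonneg (sum_nonneg fun _ _ => I_nonneg _ _ _ _)
            (sum_nonneg fun _ _ => I_nonneg _ _ _ _)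
      _ = (8 * (k + 1) * (M : ℝ) ^ 2) * ∑ l ∈ PR z y, 1 / (l : ℝ) ^ 2 := by
          rw [mul_sum]
          refine sum_congr rfl fun l _ => ?_
          rw [sum_const, Finset.card_univ, Fintype.card_fin, nsmul_eq_mul]
          push_cast
          ring
      _ ≤ (8 * (k + 1) * (M : ℝ) ^ 2) * (1 / z) :=
          mul_le_mul_of_nonneg_left (sum_sq z y hz) (by positivity)
      _ = _ := by ring
  calc ∫ ω, ‖∑ m ∈ Finset.Icc 1 M, XX g D h0 s p q m ω‖ ^ 2 ∂μ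
      ≤ ∑ m ∈ Finset.Icc 1 M, ∑ n ∈ Finset.Icc 1 M,
          ‖∫ ω, XX g D h0 s p q m ω * conj (XX g D h0 s p q n ω) ∂μ‖ :=
        sq_sum μ _ (fun m => meas_XX G D h0 s p q m) (fun m ω => norm_XX G D hD h0 s p q m ω) _
    _ ≤ ∑ m ∈ Finset.Icc 1 M, ∑ n ∈ Finset.Icc 1 M, (F m + ∑ l ∈ PR z y, I (l ^ 2) p (c a) m
          + ∑ l ∈ PR z y, ∑ j, I l p (c a) m * (I l p (c j) n + I l q (c j) n)) := by
        refine sum_le_sum fun m hm => sum_le_sum fun n hn => ?_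
        rw [Finset.mem_Icc] at hm hn
        exact all_bound G D hD h0 s a p q z H (PR z y) hQ1 m n hm.1 hn.1
    _ = M * ∑ m ∈ Finset.Icc 1 M, F m
        + M * ∑ m ∈ Finset.Icc 1 M, ∑ l ∈ PR z y, I (l ^ 2) p (c a) m
        + ∑ m ∈ Finset.Icc 1 M, ∑ n ∈ Finset.Icc 1 M, ∑ l ∈ PR z y, ∑ j, I l p (c a) m *
          (I l p (c j) n + I l q (c j) n) := by
        have e : ∀ m, ∑ n ∈ Finset.Icc 1 M, (F m + ∑ l ∈ PR z y, I (l ^ 2) p (c a) m
            + ∑ l ∈ PR z y, ∑ j, I l p (c a) m * (I l p (c j) n + I l q (c j) n))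
            = M * F m + M * ∑ l ∈ PR z y, I (l ^ 2) p (c a) m
              + ∑ n ∈ Finset.Icc 1 M, ∑ l ∈ PR z y, ∑ j, I l p (c a) m *
                (I l p (c j) n + I l q (c j) n) := by
          intro m
          rw [sum_add_distrib, sum_add_distrib]
          simp
        simp only [e]
        rw [sum_add_distrib, sum_add_distrib, ← mul_sum, ← mul_sum]
    _ ≤ M * (18 / L * M) + M * (M / z + y) + (M : ℝ) ^ 2 * ((8 * k + 8) / z) := by
        have h1 := mul_le_mul_of_nonneg_left hF0 hM0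
        have h2 := mul_le_mul_of_nonneg_left hA hM0
        linarith
    _ = _ := by ring

end Pool.Agent.EllRand
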