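import Mathlib
import Pool.Agent.EllRand.Mom3
import Pool.Agent.Ell.Kat
import Pool.Agent.Ell.Mert

set_option autoImplicit false

/-! Random partners in Elliott's conjecture (MP_f3f922_nt): the assembly. -/

namespace Pool.Agent.EllRand

open Finset MeasureTheory ProbabilityTheory
open scoped BigOperators ComplexConjugate

theorem sum_union_le' (A B : Finset ℕ) (f : ℕ → ℝ) (hf : ∀ n, 0 ≤ f n) :
    ∑ n ∈ A ∪ B, f n ≤ ∑ n ∈ A, f n + ∑ n ∈ B, f n := by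
  have h := Finset.sum_union_inter (s₁ := A) (s₂ := B) (f := f)
  have h2 : 0 ≤ ∑ n ∈ A ∩ B, f n := sum_nonneg fun _ _ => hf _
  linarith

/-- the primes between `z` and `x ^ (1/4)` carry almost everything -/
theorem lower (C : ℝ) (hC : ∀ y : ℝ, 1 ≤ y →
      ∑ p ∈ (Finset.Iic ⌊y ^ 2⌋₊).filter (fun p : ℕ => p.Prime ∧ y < p), 1 / (p : ℝ) ≤ C)
    (w : ℕ → ℝ) (hw : ∀ l, 0 ≤ w l ∧ w l ≤ 1) (z y : ℕ) (X : ℕ) (hy : 1 ≤ y)
    (hX : X ≤ y ^ 4) :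
    ∑ l ∈ (Finset.Iic X).filter Nat.Prime, w l / l - z - 2 * C ≤ ∑ l ∈ PR z y, w l / l := by
  set f : ℕ → ℝ := fun l => w l / l with hf
  have hf0 : ∀ l, 0 ≤ f l := fun l => div_nonneg (hw l).1 (Nat.cast_nonneg _)
  have hf1 : ∀ l : ℕ, f l ≤ 1 / l := fun l =>
    div_le_div_of_nonneg_right (hw l).2 (Nat.cast_nonneg _)
  have hy1 : (1 : ℝ) ≤ y := by exact_mod_cast hy
  have hC1 := hC y hy1
  have hC2 := hC ((y : ℝ) ^ 2) (one_le_pow₀ hy1)
  set S1 := (Finset.Iic ⌊(y : ℝ) ^ 2⌋₊).filter (fun p : ℕ => p.Prime ∧ (y : ℝ) < p) with hS1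
  set S2 := (Finset.Iic ⌊((y : ℝ) ^ 2) ^ 2⌋₊).filter (fun p : ℕ => p.Prime ∧ (y : ℝ) ^ 2 < p) with hS2
  have hsub : (Finset.Iic X).filter Nat.Prime ⊆ ((Finset.Icc 1 z ∪ PR z y) ∪ S1) ∪ S2 := by
    intro l hl
    rw [Finset.mem_filter, Finset.mem_Iic] at hl
    rw [Finset.mem_union, Finset.mem_union, Finset.mem_union, Finset.mem_Icc, mem_PR, hS1, hS2,
      Finset.mem_filter, Finset.mem_filter, Finset.mem_Iic, Finset.mem_Iic]
    have hpos := hl.2.pos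
    rcases le_or_gt l z with h1 | h1
    · exact Or.inl (Or.inl (Or.inl ⟨hpos, h1⟩))
    rcases le_or_gt l y with h2 | h2
    · exact Or.inl (Or.inl (Or.inr ⟨⟨h1, h2⟩, hl.2⟩))
    rcases le_or_gt l (y ^ 2) with h3 | h3
    · refine Or.inl (Or.inr ⟨?_, hl.2, by exact_mod_cast h2⟩)
      apply Nat.le_floor
      exact_mod_cast h3
    · refine Or.inr ⟨?_, hl.2, by exact_mod_cast h3⟩
      apply Nat.le_floor
      have h4 : l ≤ (y ^ 2) ^ 2 := by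
        calc l ≤ X := hl.1
          _ ≤ y ^ 4 := hX
          _ = (y ^ 2) ^ 2 := by ring
      exact_mod_cast h4
  have e1 : ∑ l ∈ (Finset.Iic X).filter Nat.Prime, f l
      ≤ ∑ l ∈ Finset.Icc 1 z, f l + ∑ l ∈ PR z y, f l + ∑ l ∈ S1, f l + ∑ l ∈ S2, f l := by
    calc _ ≤ ∑ l ∈ ((Finset.Icc 1 z ∪ PR z y) ∪ S1) ∪ S2, f l :=
          sum_le_sum_of_subset_of_nonneg hsub fun _ _ _ => hf0 _
      _ ≤ ∑ l ∈ (Finset.Icc 1 z ∪ PR z y) ∪ S1, f l + ∑ l ∈ S2, f l := sum_union_le' _ _ _ hf0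
      _ ≤ (∑ l ∈ Finset.Icc 1 z ∪ PR z y, f l + ∑ l ∈ S1, f l) + ∑ l ∈ S2, f l := by
          have := sum_union_le' (Finset.Icc 1 z ∪ PR z y) S1 f hf0
          linarith
      _ ≤ _ := by
          have := sum_union_le' (Finset.Icc 1 z) (PR z y) f hf0
          linarith
  have e2 : ∑ l ∈ Finset.Icc 1 z, f l ≤ z := by
    calc ∑ l ∈ Finset.Icc 1 z, f l ≤ ∑ l ∈ Finset.Icc 1 z, (1 : ℝ) := by
          refine sum_le_sum fun l hl => (hf1 l).trans ?_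
          rw [Finset.mem_Icc] at hl
          have : (1 : ℝ) ≤ l := by exact_mod_cast hl.1
          rw [div_le_one (by linarith)]
          exact this
      _ = z := by simp
  have e3 : ∑ l ∈ S1, f l ≤ C := (sum_le_sum fun l _ => hf1 l).trans hC1
  have e4 : ∑ l ∈ S2, f l ≤ C := (sum_le_sum fun l _ => hf1 l).trans hC2
  linarith

/-- shifting the sum -/
theorem shift_sum {k : ℕ} (g : Fin (k + 1) → ArithmeticFunction ℂ) (D : ℕ → ℂ) (h0 : ℕ)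
    (s : Fin (k + 1) → ℕ) (f : ℕ → ℂ) (X : ℕ) :
    ∑ n ∈ Finset.Icc 1 (X + h0), f n * HH g D h0 s n
      = ∑ n ∈ Finset.Icc 1 X, f (n + h0) * (D n * ∏ j, g j (n + s j)) := by
  have e1 : ∑ n ∈ Finset.Icc 1 X, f (n + h0) * (D n * ∏ j, g j (n + s j))
      = ∑ n ∈ Finset.Icc 1 X, (fun n => f n * HH g D h0 s n) (n + h0) := by
    refine sum_congr rfl fun n hn => ?_
    rw [Finset.mem_Icc] at hn
    simp only [HH]
    rw [if_pos (by omega), Nat.add_sub_cancel]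
  rw [e1]
  have e2 : ∑ n ∈ Finset.Icc 1 X, (fun n => f n * HH g D h0 s n) (n + h0)
      = ∑ n ∈ (Finset.Icc 1 X).map (addRightEmbedding h0), (fun n => f n * HH g D h0 s n) n := by
    rw [Finset.sum_map]
    rfl
  rw [e2, Finset.map_add_right_Icc]
  symm
  apply Finset.sum_subset
  · intro n hn
    rw [Finset.mem_Icc] at hn ⊢
    omega
  · intro n hn hn2
    rw [Finset.mem_Icc] at hn hn2
    simp only [HH]
    rw [if_neg (by omega), mul_zero]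

/-- Chebyshev -/
theorem cheb {Ω : Type} [MeasurableSpace Ω] (μ : Measure Ω) [IsProbabilityMeasure μ]
    (F : Ω → ℂ) (hF : Measurable F) (K : ℝ) (hK : ∀ ω, ‖F ω‖ ≤ K) (t η : ℝ) (ht : 0 < t)
    (h : ∫ ω, ‖F ω‖ ^ 2 ∂μ ≤ η * t ^ 2) : μ {ω | t < ‖F ω‖} ≤ ENNReal.ofReal η := by
  have hint : Integrable (fun ω => ‖F ω‖ ^ 2) μ := by
    refine Integrable.of_bound (hF.norm.pow_const 2).aestronglyMeasurable (K ^ 2)
      (Filter.Eventually.of_forall fun ω => ?_)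
    rw [Real.norm_of_nonneg (by positivity)]
    exact pow_le_pow_left₀ (norm_nonneg _) (hK ω) 2
  have h1 := mul_meas_ge_le_integral_of_nonneg (μ := μ) (f := fun ω => ‖F ω‖ ^ 2)
    (Filter.Eventually.of_forall fun ω => by positivity) hint (t ^ 2)
  have h2 : μ.real {ω | t ^ 2 ≤ ‖F ω‖ ^ 2} ≤ η := by
    have h3 : t ^ 2 * μ.real {ω | t ^ 2 ≤ ‖F ω‖ ^ 2} ≤ t ^ 2 * η := by
      calc _ ≤ _ := h1
        _ ≤ _ := h
        _ = _ := mul_comm _ _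
    exact le_of_mul_le_mul_left h3 (by positivity)
  have hsub : {ω | t < ‖F ω‖} ⊆ {ω | t ^ 2 ≤ ‖F ω‖ ^ 2} := by
    intro ω hω
    have hω' : t < ‖F ω‖ := hω
    exact pow_le_pow_left₀ ht.le hω'.le 2
  calc μ {ω | t < ‖F ω‖} ≤ μ {ω | t ^ 2 ≤ ‖F ω‖ ^ 2} := measure_mono hsub
    _ = ENNReal.ofReal (μ.real {ω | t ^ 2 ≤ ‖F ω‖ ^ 2}) := by
        rw [ofReal_measureReal]
    _ ≤ ENNReal.ofReal η := ENNReal.ofReal_le_ofReal h2

/-- one pair of primes -/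
theorem pair_prob {Ω : Type} [MeasurableSpace Ω] {μ : Measure Ω} [IsProbabilityMeasure μ] {k : ℕ}
    {g : Fin (k + 1) → Ω → ArithmeticFunction ℂ}
    (C : ℝ) (hC : ∀ y : ℝ, 1 ≤ y →
      ∑ p ∈ (Finset.Iic ⌊y ^ 2⌋₊).filter (fun p : ℕ => p.Prime ∧ y < p), 1 / (p : ℝ) ≤ C)
    (G : Rnd μ g) (D : ℕ → ℂ) (hD : ∀ n, ‖D n‖ ≤ 1) (h0 : ℕ)
    (s : Fin (k + 1) → ℕ) (a : Fin (k + 1)) (p q z : ℕ) (H : Par h0 s a p q z)
    (δ η : ℝ) (hδ : 0 < δ) (hη : 0 < η)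
    (hz : (8 * k + 9) / (z : ℝ) ≤ η * δ ^ 2 / 3)
    (A : ℝ) (hA : 54 / (η * δ ^ 2) + 1 + z + 2 * C ≤ A)
    (R Y x' X : ℕ) (hR : max p q ≤ R) (hY : 3 / (η * δ ^ 2) ≤ Y) (hY1 : 1 ≤ Y) (hY2 : 4 * R ≤ Y ^ 2)
    (hx1 : R * Y ^ 2 ≤ x') (hX : X ≤ x')
    (hsum : A ≤ ∑ l ∈ (Finset.Iic X).filter Nat.Prime, (1 - ‖∫ ω, g a ω l ∂μ‖) / l) :
    μ {ω | δ * x' < ‖∑ m ∈ Finset.Icc 1 (x' / max p q), XX g D h0 s p q m ω‖}
      ≤ ENNReal.ofReal η := by
  set M : ℕ := x' / max p q with hM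
  set y : ℕ := Nat.sqrt M with hy
  have hmax : 0 < max p q := lt_of_lt_of_le H.pp.pos (le_max_left _ _)
  have hR0 : 0 < R := lt_of_lt_of_le hmax hR
  have hMY : Y ^ 2 ≤ M := by
    rw [hM, Nat.le_div_iff_mul_le hmax]
    calc Y ^ 2 * max p q ≤ Y ^ 2 * R := Nat.mul_le_mul_left _ hR
      _ = R * Y ^ 2 := mul_comm _ _
      _ ≤ x' := hx1
  have hYy : Y ≤ y := by
    rw [hy, Nat.le_sqrt']
    exact hMY
  have hy1 : 1 ≤ y := hY1.trans hYy
  have hy2 : y ^ 2 ≤ M := Nat.sqrt_le' M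
  have hy3 : M < (y + 1) ^ 2 := Nat.lt_succ_sqrt' M
  have hMx : M ≤ x' := Nat.div_le_self _ _
  have hXy : X ≤ y ^ 4 := by
    have h1 : x' < (M + 1) * max p q := by
      rw [hM]
      have h2 := Nat.div_add_mod x' (max p q)
      have h3 := Nat.mod_lt x' hmax
      nlinarith
    have h4 : x' ≤ (y + 1) ^ 2 * R := by
      calc x' ≤ (M + 1) * max p q := h1.le
        _ ≤ (y + 1) ^ 2 * R := Nat.mul_le_mul hy3 hR
    have h5 : (y + 1) ^ 2 ≤ 4 * y ^ 2 := by nlinarith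
    calc X ≤ x' := hX
      _ ≤ (y + 1) ^ 2 * R := h4
      _ ≤ 4 * y ^ 2 * R := Nat.mul_le_mul_right _ h5
      _ = y ^ 2 * (4 * R) := by ring
      _ ≤ y ^ 2 * Y ^ 2 := Nat.mul_le_mul_left _ hY2
      _ ≤ y ^ 2 * y ^ 2 := Nat.mul_le_mul_left _ (Nat.pow_le_pow_left hYy 2)
      _ = y ^ 4 := by ring
  have hν : ∀ l : ℕ, 0 ≤ 1 - ‖∫ ω, g a ω l ∂μ‖ ∧ 1 - ‖∫ ω, g a ω l ∂μ‖ ≤ 1 := fun l => by
    have h1 : ‖∫ ω, g a ω l ∂μ‖ ≤ 1 := int_bound _ fun ω => G.bd a ω l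
    have h2 := norm_nonneg (∫ ω, g a ω l ∂μ)
    constructor <;> linarith
  have hlow := lower C hC (fun l => 1 - ‖∫ ω, g a ω l ∂μ‖) hν z y X hy1 hXy
  set τ : ℝ := η * δ ^ 2 with hτ
  have hτ0 : 0 < τ := by positivity
  set L : ℝ := 54 / τ + 1 with hL
  have hL1 : 1 ≤ L := by
    have : 0 < 54 / τ := by positivity
    linarith
  have hLs : L ≤ ∑ l ∈ PR z y, (1 - ‖∫ ω, g a ω l ∂μ‖) / l := by linarith
  have hmom := mom G D hD h0 s a p q z H y M L hy2 hLs hL1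
  have hx0 : (0 : ℝ) < x' := by
    have : 0 < x' := by
      have : 0 < R * Y ^ 2 := by positivity
      omega
    exact_mod_cast this
  refine cheb μ _ (Finset.measurable_sum _ fun m _ => meas_XX G D h0 s p q m) M ?_ (δ * x') η
    (by positivity) ?_
  · intro ω
    calc ‖∑ m ∈ Finset.Icc 1 M, XX g D h0 s p q m ω‖ ≤ ∑ m ∈ Finset.Icc 1 M, (1 : ℝ) :=
          norm_sum_le_of_le _ fun m _ => norm_XX G D hD h0 s p q m ω
      _ = M := by simp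
  · have hMx' : (M : ℝ) ≤ x' := by exact_mod_cast hMx
    have hM0 : (0 : ℝ) ≤ M := Nat.cast_nonneg M
    have hy0 : (0 : ℝ) < y := by exact_mod_cast hy1
    have a1 : 18 / L ≤ τ / 3 := by
      rw [div_le_iff₀ (by linarith), hL]
      have : τ / 3 * (54 / τ + 1) = 18 + τ / 3 := by
        field_simp
        ring
      linarith
    have a2 : (y : ℝ) ≤ M * (τ / 3) := by
      have b1 : (3 : ℝ) / τ ≤ y := hY.trans (by exact_mod_cast hYy)
      have b2 : (y : ℝ) ^ 2 ≤ M := by exact_mod_cast hy2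
      have b3 : 3 ≤ y * τ := by
        rw [div_le_iff₀ hτ0] at b1
        exact b1
      have b4 : 3 * (y : ℝ) ≤ M * τ := by
        calc 3 * (y : ℝ) ≤ (y * τ) * y := mul_le_mul_of_nonneg_right b3 hy0.le
          _ = y ^ 2 * τ := by ring
          _ ≤ M * τ := mul_le_mul_of_nonneg_right b2 hτ0.le
      linarith
    have a3 : (M : ℝ) * y ≤ (M : ℝ) ^ 2 * (τ / 3) := by
      calc (M : ℝ) * y ≤ M * (M * (τ / 3)) := mul_le_mul_of_nonneg_left a2 hM0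
        _ = _ := by ring
    calc ∫ ω, ‖∑ m ∈ Finset.Icc 1 M, XX g D h0 s p q m ω‖ ^ 2 ∂μ
        ≤ (M : ℝ) ^ 2 * (18 / L + (8 * k + 9) / z) + M * y := hmom
      _ ≤ (M : ℝ) ^ 2 * (τ / 3 + τ / 3) + (M : ℝ) ^ 2 * (τ / 3) := by
          have := mul_le_mul_of_nonneg_left (add_le_add a1 hz) (sq_nonneg (M : ℝ))
          linarith
      _ = (M : ℝ) ^ 2 * τ := by ring
      _ ≤ (x' : ℝ) ^ 2 * τ := by
          apply mul_le_mul_of_nonneg_right _ hτ0.le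
          exact pow_le_pow_left₀ hM0 hMx' 2
      _ = η * (δ * x') ^ 2 := by rw [hτ]; ring

/-- the theorem -/
theorem main (k : ℕ) (h : Fin (k + 2) → ℕ) (hh : Function.Injective h) (a : Fin (k + 1))
    (ε : ℝ) (hε : 0 < ε) : ∃ A₀ : ℝ, ∀ A : ℝ, 2 ≤ A → A₀ ≤ A → ∀ x : ℝ, A ≤ x →
    ∀ (Ω : Type) [MeasurableSpace Ω] (μ : Measure Ω) [IsProbabilityMeasure μ]
      (g : Fin (k + 1) → Ω → ArithmeticFunction ℂ) (D : ℕ → ℂ), Rnd μ g → (∀ n, ‖D n‖ ≤ 1) →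
      A ≤ ∑ p ∈ (Finset.Iic ⌊x⌋₊).filter Nat.Prime, (1 - ‖∫ ω, g a ω p ∂μ‖) / (p : ℝ) →
      ∃ E : Set Ω, MeasurableSet E ∧ μ E ≤ ENNReal.ofReal ε ∧ ∀ ω, ω ∉ E →
        ∀ f : ArithmeticFunction ℂ, f.IsMultiplicative → (∀ n, ‖f n‖ ≤ 1) →
        ‖∑ n ∈ Finset.Icc 1 ⌊x⌋₊, f (n + h 0) * (D n * ∏ j, g j ω (n + h j.succ))‖ / x ≤ ε := by
  obtain ⟨C, hC0, hC⟩ := Pool.Agent.Ell.p_MERT
  set h0 := h 0 with hh0
  set s : Fin (k + 1) → ℕ := fun j => h j.succ with hs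
  set N0 : ℕ := ∑ i, h i with hN0
  have hN : ∀ i, h i ≤ N0 := fun i =>
    Finset.single_le_sum (f := h) (fun _ _ => Nat.zero_le _) (Finset.mem_univ i)
  obtain ⟨P, δ, X0, hP, hδ, hK⟩ := Pool.Agent.Ell.p_KAT (ε / 2) N0 (by positivity)
  set η : ℝ := ε / ((P.card : ℝ) ^ 2 + 1) with hη
  have hη0 : 0 < η := by positivity
  have hτ0 : 0 < η * δ ^ 2 := by positivity
  set R : ℕ := ∑ p ∈ P, p + 1 with hR
  have hPR : ∀ p ∈ P, p ≤ R := by
    intro p hp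
    have h1 : p ≤ ∑ p ∈ P, p :=
      Finset.single_le_sum (f := fun p : ℕ => p) (fun _ _ => Nat.zero_le _) hp
    omega
  set z : ℕ := R + N0 + 2 * R * N0 + ⌈(8 * k + 9) / (η * δ ^ 2 / 3)⌉₊ with hz
  set Y : ℕ := ⌈3 / (η * δ ^ 2)⌉₊ + 4 * R with hY
  have hR1 : 1 ≤ R := by omega
  have hz1 : 1 ≤ z := by omega
  refine ⟨54 / (η * δ ^ 2) + 1 + z + 2 * C + (R * Y ^ 2 + X0 + h0 + 1 : ℕ), ?_⟩
  intro A hA2 hA x hx Ω _ μ _ g D G hD hsum
  have hA' : 54 / (η * δ ^ 2) + 1 + z + 2 * C ≤ A := by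
    have : (0 : ℝ) ≤ (R * Y ^ 2 + X0 + h0 + 1 : ℕ) := Nat.cast_nonneg _
    linarith
  have hxbig : ((R * Y ^ 2 + X0 + h0 + 1 : ℕ) : ℝ) ≤ x := by
    have h1 : 0 ≤ 54 / (η * δ ^ 2) := by positivity
    have h2 : (0 : ℝ) ≤ z := Nat.cast_nonneg _
    linarith
  have hx0 : 0 < x := by linarith
  have hfl : R * Y ^ 2 + X0 + h0 + 1 ≤ ⌊x⌋₊ := Nat.le_floor hxbig
  set x' : ℕ := ⌊x⌋₊ + h0 with hx'
  have hPar : ∀ p ∈ P, ∀ q ∈ P, p ≠ q → Par h0 s a p q z := by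
    intro p hp q hq hpq
    have b1 := hN 0
    have b2 := hN a.succ
    have b3 : z = R + N0 + 2 * R * N0 + ⌈(8 * k + 9) / (η * δ ^ 2 / 3)⌉₊ := hz
    have b4 : (z : ℤ) = R + N0 + 2 * R * N0 + (⌈(8 * k + 9) / (η * δ ^ 2 / 3)⌉₊ : ℤ) := by
      rw [b3]; push_cast; ring
    have b5 : (0 : ℤ) ≤ (⌈(8 * k + 9) / (η * δ ^ 2 / 3)⌉₊ : ℤ) := Int.natCast_nonneg _
    have hp1 := hPR p hp
    have hq1 := hPR q hq
    have hp2 := (hP p hp).2
    have hq2 := (hP q hq).2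
    have r0 : (0 : ℤ) ≤ R := Int.natCast_nonneg _
    have n0 : (0 : ℤ) ≤ N0 := Int.natCast_nonneg _
    have rn : (0 : ℤ) ≤ 2 * R * N0 := by positivity
    have diff : ∀ i j : Fin (k + 2), |(h i : ℤ) - h j| ≤ N0 := by
      intro i j
      have c1 : (h i : ℤ) ≤ N0 := by exact_mod_cast hN i
      have c2 : (h j : ℤ) ≤ N0 := by exact_mod_cast hN j
      have c3 : (0 : ℤ) ≤ h i := Int.natCast_nonneg _
      have c4 : (0 : ℤ) ≤ h j := Int.natCast_nonneg _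
      rw [abs_le]
      constructor <;> linarith
    refine ⟨?_, ?_, (hP p hp).1, (hP q hq).1, hpq, ?_, ?_, ?_, hz1, ?_, ?_, ?_, ?_⟩
    · intro i j hij
      exact Fin.succ_injective _ (hh hij)
    · intro j hj
      exact (Fin.succ_ne_zero j) (hh hj)
    · omega
    · omega
    · change h a.succ < p
      omega
    · omega
    · omega
    · intro j
      have := diff j.succ a.succ
      change |(h j.succ : ℤ) - h a.succ| ≤ z
      linarith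
    · intro j
      have c1 := diff a.succ 0
      have c2 := diff j.succ 0
      have c3 : (p : ℤ) ≤ R := by exact_mod_cast hp1
      have c4 : (q : ℤ) ≤ R := by exact_mod_cast hq1
      have c5 : (0 : ℤ) ≤ p := Int.natCast_nonneg _
      have c6 : (0 : ℤ) ≤ q := Int.natCast_nonneg _
      change |(q : ℤ) * ((h a.succ : ℤ) - h 0) - p * ((h j.succ : ℤ) - h 0)| ≤ z
      calc |(q : ℤ) * ((h a.succ : ℤ) - h 0) - p * ((h j.succ : ℤ) - h 0)|
          ≤ |(q : ℤ) * ((h a.succ : ℤ) - h 0)| + |(p : ℤ) * ((h j.succ : ℤ) - h 0)| := abs_sub _ _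
        _ = q * |(h a.succ : ℤ) - h 0| + p * |(h j.succ : ℤ) - h 0| := by
            rw [abs_mul, abs_mul, abs_of_nonneg c5, abs_of_nonneg c6]
        _ ≤ R * N0 + R * N0 := by
            have d1 := mul_le_mul c4 c1 (abs_nonneg _) r0
            have d2 := mul_le_mul c3 c2 (abs_nonneg _) r0
            linarith
        _ ≤ z := by linarith
  set B : ℕ → ℕ → Set Ω := fun p q => if p = q then ∅ else
    {ω | δ * x' < ‖∑ m ∈ Finset.Icc 1 (x' / max p q), XX g D h0 s p q m ω‖} with hB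
  have hBm : ∀ p q, MeasurableSet (B p q) := by
    intro p q
    rw [hB]
    simp only
    split_ifs
    · exact MeasurableSet.empty
    · exact measurableSet_lt measurable_const
        (Finset.measurable_sum _ fun m _ => meas_XX G D h0 s p q m).norm
  have hBp : ∀ p ∈ P, ∀ q ∈ P, μ (B p q) ≤ ENNReal.ofReal η := by
    intro p hp q hq
    by_cases hpq : p = q
    · simp [hB, hpq]
    · have : B p q = {ω | δ * x' < ‖∑ m ∈ Finset.Icc 1 (x' / max p q), XX g D h0 s p q m ω‖} := by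
        simp only [hB]
        rw [if_neg hpq]
      rw [this]
      have hzc : (8 * k + 9) / (z : ℝ) ≤ η * δ ^ 2 / 3 := by
        have hz0 : (0 : ℝ) < z := by exact_mod_cast hz1
        rw [div_le_iff₀ hz0]
        have c1 : (8 * k + 9) / (η * δ ^ 2 / 3) ≤ (z : ℝ) := by
          calc (8 * k + 9) / (η * δ ^ 2 / 3) ≤ (⌈(8 * k + 9) / (η * δ ^ 2 / 3)⌉₊ : ℝ) :=
                Nat.le_ceil _
            _ ≤ z := by
                have : ⌈(8 * k + 9) / (η * δ ^ 2 / 3)⌉₊ ≤ z := by omega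
                exact_mod_cast this
        rw [div_le_iff₀ (by positivity)] at c1
        linarith
      have hYc : 3 / (η * δ ^ 2) ≤ (Y : ℝ) := by
        calc 3 / (η * δ ^ 2) ≤ (⌈3 / (η * δ ^ 2)⌉₊ : ℝ) := Nat.le_ceil _
          _ ≤ Y := by
              have : ⌈3 / (η * δ ^ 2)⌉₊ ≤ Y := by omega
              exact_mod_cast this
      refine pair_prob C hC G D hD h0 s a p q z (hPar p hp q hq hpq) δ η hδ hη0 hzc A hA' R Y x'
        ⌊x⌋₊ (max_le (hPR p hp) (hPR q hq)) hYc (by omega) ?_ (by omega) (by omega) hsum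
      have : 4 * R ≤ Y := by omega
      nlinarith
  refine ⟨⋃ p ∈ P, ⋃ q ∈ P, B p q, ?_, ?_, ?_⟩
  · exact Finset.measurableSet_biUnion _ fun p _ => Finset.measurableSet_biUnion _ fun q _ => hBm p q
  · calc μ (⋃ p ∈ P, ⋃ q ∈ P, B p q) ≤ ∑ p ∈ P, μ (⋃ q ∈ P, B p q) :=
          measure_biUnion_finset_le _ _
      _ ≤ ∑ p ∈ P, ∑ q ∈ P, μ (B p q) := sum_le_sum fun p _ => measure_biUnion_finset_le _ _
      _ ≤ ∑ p ∈ P, ∑ q ∈ P, ENNReal.ofReal η :=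
          sum_le_sum fun p hp => sum_le_sum fun q hq => hBp p hp q hq
      _ = ENNReal.ofReal ((P.card : ℝ) ^ 2 * η) := by
          rw [sum_const, sum_const, ENNReal.ofReal_mul (by positivity), nsmul_eq_mul, nsmul_eq_mul,
            ← mul_assoc, ENNReal.ofReal_pow (by positivity), ENNReal.ofReal_natCast, sq]
      _ ≤ ENNReal.ofReal ε := by
          apply ENNReal.ofReal_le_ofReal
          rw [hη, ← mul_div_assoc, div_le_iff₀ (by positivity)]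
          nlinarith [sq_nonneg (P.card : ℝ)]
  · intro ω hω f hf hfb
    have hnot : ∀ p ∈ P, ∀ q ∈ P, p ≠ q →
        ‖∑ m ∈ Finset.Icc 1 (x' / max p q), XX g D h0 s p q m ω‖ ≤ δ * x' := by
      intro p hp q hq hpq
      by_contra hc
      apply hω
      rw [Set.mem_iUnion₂]
      refine ⟨p, hp, ?_⟩
      rw [Set.mem_iUnion₂]
      refine ⟨q, hq, ?_⟩
      simp only [hB]
      rw [if_neg hpq]
      exact not_le.mp hc
    have hMB : Pool.Agent.Ell.MB (fun n => f n) :=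
      ⟨hf.map_one, fun m n hmn => hf.map_mul_of_coprime hmn, hfb⟩
    have hfin := hK x' (by omega) (fun n => f n) (HH (fun j => g j ω) D h0 s) hMB
      (norm_HH _ D h0 s (fun j n => G.bd j ω n) hD) hnot
    rw [hx', shift_sum] at hfin
    rw [div_le_iff₀ hx0]
    calc ‖∑ n ∈ Finset.Icc 1 ⌊x⌋₊, f (n + h0) * (D n * ∏ j, g j ω (n + s j))‖
        ≤ ε / 2 * (⌊x⌋₊ + h0 : ℕ) := hfin
      _ ≤ ε * x := by
          have c1 : ((⌊x⌋₊ : ℕ) : ℝ) ≤ x := Nat.floor_le hx0.le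
          have c2 : ((h0 : ℕ) : ℝ) ≤ x := by
            have : h0 ≤ ⌊x⌋₊ := by omega
            calc ((h0 : ℕ) : ℝ) ≤ (⌊x⌋₊ : ℕ) := by exact_mod_cast this
              _ ≤ x := c1
          push_cast
          nlinarith

end Pool.Agent.EllRand
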